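import Pool.Agent.W764.HL.Cluster

/-!
Clusters of points at one scale: the window depends on the ratio of the distances.
-/

set_option autoImplicit false

open MeasureTheory Filter Topology Set
open scoped ENNReal BoundedContinuousFunction

namespace Run7.h303.WS

open Pool.Agent.W764.FB Pool.Agent.W764.SH Pool.Agent.W764.HL

open Classical in
/-- **Clusters.** -/
theorem cluster {p q : ℕ} (hp : 2 ≤ p) (hq : 2 ≤ q) (hpq : Nat.Coprime p q) (m : ℕ)
    {ε : ℝ} (hε : 0 < ε) : ∃ H0 : ℝ, 1 < H0 ∧ ∀ H : ℝ, H0 ≤ H →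
      ∃ δ : ℝ, 0 < δ ∧ ∀ τ : ℝ, 0 < τ → τ < δ → (win p q (1 / τ) (H / τ)).Nonempty ∧
        ∀ x : Fin m → T, (∀ i j, i ≠ j → τ ≤ ‖x i - x j‖ ∧ ‖x i - x j‖ ≤ H * τ) →
        ∃ α : Fin m → ℝ, (∀ i, 0 ≤ α i ∧ α i ≤ 1) ∧ ∑ i, (1 - α i) ≤ 1 ∧
        ∀ i, ∀ c : T, ∀ r : ℝ, r ≤ 1 / 2 → (2 * r * α i - ε) * (win p q (1 / τ) (H / τ)).card ≤
          (((win p q (1 / τ) (H / τ)).filter fun n => ‖n • x i - c‖ ≤ r).card : ℝ) := by
  have hirr := irr_of_coprime hp hq hpq
  obtain ⟨N, hN8, hN⟩ := compactness (m := m) hp hq hpq (C := 80) (by norm_num) hε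
  have hN0 : (0 : ℝ) < N := by
    have : 0 < N := by omega
    exact_mod_cast this
  obtain ⟨Hp, hHp1, hHp⟩ := near_inv hp hq hirr (s := p) hp (η := 1 / (2 * N)) (by positivity)
  obtain ⟨Hq, hHq1, hHq⟩ := near_inv hp hq hirr (s := q) hq (η := 1 / (2 * N)) (by positivity)
  refine ⟨max (max Hp Hq) (Real.exp 2), ?_, fun H hH => ?_⟩
  · exact lt_of_lt_of_le hHp1 ((le_max_left _ _).trans (le_max_left _ _))
  have hH1 : Hp ≤ H := ((le_max_left _ _).trans (le_max_left _ _)).trans hH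
  have hH2 : Hq ≤ H := ((le_max_right _ _).trans (le_max_left _ _)).trans hH
  have hH4 : Real.exp 2 ≤ H := (le_max_right _ _).trans hH
  have hH0 : 0 < H := (Real.exp_pos _).trans_le hH4
  have hH5 : 2 ≤ Real.log H := (Real.le_log_iff_exp_le hH0).2 hH4
  have hHgt : 1 < H := hHp1.trans_le hH1
  have hH3 : H ≤ H := le_rfl
  obtain ⟨δp, hδp, hδp2⟩ := hHp H hH1
  obtain ⟨δq, hδq, hδq2⟩ := hHq H hH2
  obtain ⟨δc, hδc, hδc2⟩ := card_large hp hq hirr hHgt 1
  have harc : ∀ k : ℕ, ∃ δ : ℝ, 0 < δ ∧ (8 ≤ k → ∀ τ : ℝ, 0 < τ → τ < δ → ∀ z : T, τ ≤ ‖z‖ →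
      ‖z‖ ≤ H * τ → ∀ c : T, (((win p q (1 / τ) (H / τ)).filter fun n =>
        ‖n • z - c‖ ≤ 1 / (k : ℝ)).card : ℝ) ≤
        (80 * (1 / k) + 1 / N) * (win p q (1 / τ) (H / τ)).card) := by
    intro k
    by_cases hk : 8 ≤ k
    · have hk8 : (8 : ℝ) ≤ k := by exact_mod_cast hk
      obtain ⟨δ, hδ, h⟩ := arc_win hp hq hirr hHgt.le hH3 hH5 (r := 1 / (k : ℝ)) (by positivity)
        (by rw [div_le_div_iff₀ (by linarith) (by norm_num)]; linarith)
        (η := 1 / (N : ℝ)) (by positivity)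
      refine ⟨δ, hδ, fun _ τ hτ hτδ z hz1 hz2 c => ?_⟩
      have := h τ hτ hτδ z hz1 hz2 c
      convert this
    · exact ⟨1, one_pos, fun h => absurd h hk⟩
  choose δk hδk hδk2 using harc
  obtain ⟨k0, -, hk0⟩ := Finset.exists_min_image (Finset.Icc 8 N) δk
    ⟨8, Finset.mem_Icc.2 ⟨le_rfl, hN8⟩⟩
  refine ⟨min (min δp δq) (min δc (δk k0)), by
    have := hδk k0
    positivity, fun τ hτ hτδ => ?_⟩
  have hτ1 : τ < δp := hτδ.trans_le ((min_le_left _ _).trans (min_le_left _ _))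
  have hτ2 : τ < δq := hτδ.trans_le ((min_le_left _ _).trans (min_le_right _ _))
  have hτ3 : τ < δc := hτδ.trans_le ((min_le_right _ _).trans (min_le_left _ _))
  have hτ4 : τ < δk k0 := hτδ.trans_le ((min_le_right _ _).trans (min_le_right _ _))
  set W := win p q (1 / τ) (H / τ) with hW
  have hcard := hδc2 τ hτ hτ3
  have hWR : (0 : ℝ) < W.card := by linarith
  have hWne : W.Nonempty := Finset.card_pos.1 (by exact_mod_cast hWR)
  refine ⟨hWne, fun x hx => ?_⟩
  have hprob := emp_prob hWne x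
  obtain ⟨α, hα1, hα2, hα3⟩ := hN (emp W x) hprob (by
    intro s hs f hf
    have hs2 : 2 ≤ s := by rcases hs with rfl | rfl <;> assumption
    rw [emp_integral W x (fun z => f (s • z)) (f.continuous.comp (continuous_nsmul s)),
      emp_integral W x (fun z => f z) f.continuous, ← mul_sub, abs_mul,
      abs_of_pos (inv_pos.2 hWR), inv_mul_le_iff₀ hWR]
    have h1 := sum_dilate (s := s) (by omega) W (fun n => f (n • x)) fun n => hf _
    have h2 : ∀ n : ℕ, s • n • x = (s * n) • x := fun n => (mul_smul s n x).symm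
    simp_rw [h2]
    refine h1.trans ?_
    have h3 : (W.filter fun n => s * n ∉ W).card ≤
        (W.filter fun n => H / τ ≤ ((s * n : ℕ) : ℝ)).card := by
      refine Finset.card_le_card fun n hn => ?_
      rw [Finset.mem_filter] at hn ⊢
      refine ⟨hn.1, ?_⟩
      by_contra hlt
      push Not at hlt
      apply hn.2
      have hnW := hn.1
      rw [hW, mem_win] at hnW ⊢
      obtain ⟨⟨a, b, rfl⟩, h4, h5⟩ := hnW
      refine ⟨?_, ?_, hlt⟩
      · rcases hs with rfl | rfl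
        · exact ⟨a + 1, b, by ring⟩
        · exact ⟨a, b + 1, by ring⟩
      · refine h4.trans ?_
        exact_mod_cast Nat.le_mul_of_pos_left _ (by omega)
    have h4 : ((W.filter fun n => H / τ ≤ ((s * n : ℕ) : ℝ)).card : ℝ) ≤
        1 / (2 * N) * W.card := by
      rcases hs with rfl | rfl
      · have := hδp2 τ hτ hτ1
        convert this
      · have := hδq2 τ hτ hτ2
        convert this
    have h5 : ((W.filter fun n => s * n ∉ W).card : ℝ) ≤ 1 / (2 * N) * W.card :=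
      le_trans (by exact_mod_cast h3) h4
    calc 2 * ((W.filter fun n => s * n ∉ W).card : ℝ) ≤ 2 * (1 / (2 * N) * W.card) := by gcongr
      _ = W.card * (1 / N) := by field_simp) (by
    intro i j hij c k hk1 hk2
    have hmeas : MeasurableSet {z : Fin m → T | ‖z i - z j - c‖ ≤ 1 / (k : ℝ)} :=
      (isClosed_le (by fun_prop) continuous_const).measurableSet
    rw [emp_real W x hmeas, inv_mul_le_iff₀ hWR]
    obtain ⟨h1, h2⟩ := hx i j hij
    have h3 := hδk2 k hk1 τ hτ (hτ4.trans_le (hk0 k (Finset.mem_Icc.2 ⟨hk1, hk2⟩)))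
      (x i - x j) h1 h2 c
    rw [mul_comm (W.card : ℝ)]
    refine le_trans (le_of_eq ?_) h3
    congr 2
    refine Finset.filter_congr fun n _ => ?_
    rw [smul_sub]
    rfl)
  refine ⟨α, hα1, hα2, fun i c r hr => ?_⟩
  have h1 := hα3 i c r hr
  have hmeas : MeasurableSet {z : Fin m → T | ‖z i - c‖ ≤ r} :=
    (isClosed_le (by fun_prop) continuous_const).measurableSet
  rw [emp_real W x hmeas, ← div_eq_inv_mul, le_div_iff₀ hWR] at h1
  refine h1.trans (le_of_eq ?_)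
  congr 2



end Run7.h303.WS
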