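import Pool.Agent.Run7.h303.WS.Defs
import Pool.Agent.Run7.h303.WS.Clus
import Pool.Agent.Y314.FD.Final

/-!
At each scale, few of the `H`-adic subarcs of an `H`-adic arc contain points which are not
equidistributed at that scale.
-/

set_option autoImplicit false

open MeasureTheory Filter Topology Set

namespace Run7.h303.WS

open Pool.Agent.W764.FB Pool.Agent.W764.SH Pool.Agent.W764.HL

lemma rep_nonneg (x : T) : 0 ≤ rep x := (AddCircle.equivIco (1 : ℝ) 0 x).2.1

lemma rep_lt_one (x : T) : rep x < 1 := by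
  have h := (AddCircle.equivIco (1 : ℝ) 0 x).2.2
  have h2 : rep x < 0 + 1 := h
  linarith

lemma coe_rep (x : T) : ((rep x : ℝ) : T) = x :=
  (AddCircle.equivIco (1 : ℝ) 0).left_inv x

lemma idx_lt {H : ℕ} (hH : 1 ≤ H) (n : ℕ) (x : T) : idx H n x < H ^ n := by
  unfold idx
  have hH' : (0 : ℝ) < (H : ℝ) ^ n := by
    have : (0 : ℝ) < H := by exact_mod_cast hH
    positivity
  rw [Nat.floor_lt (mul_nonneg hH'.le (rep_nonneg x))]
  push_cast
  have := rep_lt_one x
  nlinarith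

lemma idx_succ {H : ℕ} (hH : 1 ≤ H) (n : ℕ) (x : T) : idx H (n + 1) x / H = idx H n x := by
  unfold idx
  have hH' : (0 : ℝ) < H := by exact_mod_cast hH
  rw [← Nat.floor_div_natCast]
  congr 1
  rw [pow_succ]
  field_simp

lemma norm_coe_le (y : ℝ) : ‖((y : ℝ) : T)‖ ≤ |y| := by
  rw [UnitAddCircle.norm_eq]
  have := round_le y 0
  rwa [Int.cast_zero, sub_zero] at this

lemma norm_coe_half {y : ℝ} (hy : |y| ≤ 1 / 2) : ‖((y : ℝ) : T)‖ = |y| :=
  (AddCircle.norm_coe_eq_abs_iff (p := (1 : ℝ)) (x := y) one_ne_zero).2 (by rw [abs_one]; exact hy)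

lemma sub_eq_coe (x y : T) : x - y = ((rep x - rep y : ℝ) : T) := by
  rw [AddCircle.coe_sub, coe_rep, coe_rep]

/-- points in the same arc are close -/
lemma rep_close {H n : ℕ} (hH : 1 ≤ H) {x y : T} (h : idx H n x = idx H n y) :
    |rep x - rep y| ≤ 1 / (H : ℝ) ^ n := by
  have hHn : (0 : ℝ) < (H : ℝ) ^ n := by
    have : (0 : ℝ) < H := by exact_mod_cast hH
    positivity
  have h1 := Nat.floor_le (mul_nonneg hHn.le (rep_nonneg x))
  have h2 := Nat.lt_floor_add_one ((H : ℝ) ^ n * rep x)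
  have h3 := Nat.floor_le (mul_nonneg hHn.le (rep_nonneg y))
  have h4 := Nat.lt_floor_add_one ((H : ℝ) ^ n * rep y)
  have h5 : (⌊(H : ℝ) ^ n * rep x⌋₊ : ℝ) = ⌊(H : ℝ) ^ n * rep y⌋₊ := by
    have : ⌊(H : ℝ) ^ n * rep x⌋₊ = ⌊(H : ℝ) ^ n * rep y⌋₊ := h
    rw [this]
  rw [le_div_iff₀ hHn]
  have h6 : |rep x - rep y| * (H : ℝ) ^ n = |(rep x - rep y) * (H : ℝ) ^ n| := by
    rw [abs_mul, abs_of_pos hHn]
  rw [h6, abs_le]
  constructor <;> nlinarith

/-- points in the same arc whose subarcs are not adjacent are separated -/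
lemma sep {H n : ℕ} (hH : 2 ≤ H) (hn : 1 ≤ n) {x y : T} (h : idx H n x = idx H n y)
    (h2 : idx H (n + 1) x + 2 ≤ idx H (n + 1) y) :
    1 / (H : ℝ) ^ (n + 1) ≤ ‖x - y‖ ∧ ‖x - y‖ ≤ H * (1 / (H : ℝ) ^ (n + 1)) := by
  have hHR : (2 : ℝ) ≤ H := by exact_mod_cast hH
  have hH0 : (0 : ℝ) < H := by linarith
  have hHn : (0 : ℝ) < (H : ℝ) ^ n := by positivity
  have hHn1 : (0 : ℝ) < (H : ℝ) ^ (n + 1) := by positivity
  have h3 := rep_close (by omega : 1 ≤ H) h
  have h4 : 1 / (H : ℝ) ^ n ≤ 1 / 2 := by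
    rw [div_le_div_iff₀ hHn (by norm_num)]
    have : (H : ℝ) ^ 1 ≤ (H : ℝ) ^ n := pow_le_pow_right₀ (by linarith) hn
    rw [pow_one] at this
    linarith
  have h5 : ‖x - y‖ = |rep x - rep y| := by
    rw [sub_eq_coe]
    exact norm_coe_half (h3.trans h4)
  have h6 : (H : ℝ) * (1 / (H : ℝ) ^ (n + 1)) = 1 / (H : ℝ) ^ n := by
    rw [pow_succ]; field_simp
  rw [h5, h6]
  refine ⟨?_, h3⟩
  have h7 := Nat.lt_floor_add_one ((H : ℝ) ^ (n + 1) * rep x)
  have h8 := Nat.floor_le (mul_nonneg hHn1.le (rep_nonneg y))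
  have h9 : (⌊(H : ℝ) ^ (n + 1) * rep x⌋₊ : ℝ) + 2 ≤ ⌊(H : ℝ) ^ (n + 1) * rep y⌋₊ := by
    unfold idx at h2
    have h10 := (Nat.cast_le (α := ℝ)).2 h2
    rw [Nat.cast_add] at h10
    exact h10
  rw [abs_sub_comm]
  refine le_trans ?_ (le_abs_self _)
  rw [div_le_iff₀ hHn1]
  nlinarith

section
variable {p q : ℕ}

lemma win_set (H k : ℕ) : {n : ℕ | H ^ k ≤ n ∧ n < H ^ (k + 1) ∧ ∃ i j : ℕ, n = p ^ i * q ^ j} =
    (win p q ((H : ℝ) ^ k) ((H : ℝ) ^ (k + 1)) : Set ℕ) := by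
  ext n
  rw [Finset.mem_coe, mem_win]
  constructor
  · rintro ⟨h1, h2, h3⟩
    exact ⟨h3, by exact_mod_cast h1, by exact_mod_cast h2⟩
  · rintro ⟨h3, h1, h2⟩
    exact ⟨by exact_mod_cast h1, by exact_mod_cast h2, h3⟩

lemma total_eq (H k : ℕ) :
    total p q H k = (win p q ((H : ℝ) ^ k) ((H : ℝ) ^ (k + 1))).card := by
  unfold total
  rw [win_set, Set.ncard_coe_finset]

open Classical in
lemma visits_eq (H k : ℕ) (x c : T) (r : ℝ) : visits p q H k x c r =
    ((win p q ((H : ℝ) ^ k) ((H : ℝ) ^ (k + 1))).filter fun n => ‖n • x - c‖ ≤ r).card := by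
  unfold visits
  rw [← Set.ncard_coe_finset]
  congr 1
  ext n
  rw [Finset.mem_coe, Finset.mem_filter, ← Finset.mem_coe, ← win_set]
  simp only [Set.mem_setOf_eq, Metric.mem_closedBall, dist_eq_norm]
  tauto

open Classical in
/-- lower bounds for all arcs give two-sided bounds -/
lemma good_of_lower {ε : ℝ} {H k : ℕ} {x : T}
    (h : ∀ c : T, ∀ r : ℝ, r ≤ 1 / 2 → (2 * r - ε) * (total p q H k : ℝ) ≤ visits p q H k x c r) :
    GoodScale p q ε H k x := by
  intro c r hr0 hr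
  rw [abs_le]
  have hW : (0 : ℝ) ≤ total p q H k := Nat.cast_nonneg _
  refine ⟨by nlinarith [h c r hr], ?_⟩
  -- the complementary arc
  have key : ∀ η : ℝ, 0 < η → (visits p q H k x c r : ℝ) ≤ (2 * r + ε) * total p q H k + η := by
    intro η0 hη0
    set η := η0 / (2 * (total p q H k + 1)) with hη
    have hη1 : 0 < η := by positivity
    have h1 := h (c + ((1 / 2 : ℝ) : T)) (1 / 2 - r - η) (by linarith)
    have hdisj : visits p q H k x c r + visits p q H k x (c + ((1 / 2 : ℝ) : T)) (1 / 2 - r - η) ≤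
        total p q H k := by
      rw [visits_eq, visits_eq, total_eq, ← Finset.card_union_of_disjoint]
      · exact Finset.card_le_card (Finset.union_subset (Finset.filter_subset _ _)
          (Finset.filter_subset _ _))
      · rw [Finset.disjoint_left]
        intro n hn hn'
        rw [Finset.mem_filter] at hn hn'
        have h3 : ‖((1 / 2 : ℝ) : T)‖ = 1 / 2 := by
          rw [norm_coe_half (by rw [abs_of_nonneg (by norm_num)]), abs_of_nonneg (by norm_num)]
        have h4 : ((1 / 2 : ℝ) : T) = (n • x - c) - (n • x - (c + ((1 / 2 : ℝ) : T))) := by abel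
        have h5 : ‖((1 / 2 : ℝ) : T)‖ ≤ ‖n • x - c‖ + ‖n • x - (c + ((1 / 2 : ℝ) : T))‖ := by
          conv_lhs => rw [h4]
          exact norm_sub_le _ _
        rw [h3] at h5
        have := hn.2
        have := hn'.2
        linarith
    have h2 : (visits p q H k x c r : ℝ) +
        visits p q H k x (c + ((1 / 2 : ℝ) : T)) (1 / 2 - r - η) ≤ total p q H k := by
      exact_mod_cast hdisj
    have h3 : 2 * η * total p q H k ≤ η0 := by
      rw [hη]
      rw [mul_div_assoc', div_mul_eq_mul_div, div_le_iff₀ (by positivity)]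
      nlinarith
    nlinarith
  have := le_of_forall_pos_le_add key
  linarith

lemma exists_bad_arc {ε : ℝ} {H k : ℕ} {x : T} (h : ¬ GoodScale p q ε H k x) :
    ∃ c : T, ∃ r : ℝ, r ≤ 1 / 2 ∧
      (visits p q H k x c r : ℝ) < (2 * r - ε) * (total p q H k : ℝ) := by
  by_contra hcon
  push Not at hcon
  exact h (good_of_lower hcon)

variable (hp : 2 ≤ p) (hq : 2 ≤ q)
include hp hq

open Classical in
/-- **Few bad subarcs.** -/
theorem bad_children (hpq : Nat.Coprime p q) {ε : ℝ} (hε : 0 < ε) :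
    ∃ M : ℕ, ∃ H0 : ℕ, 2 ≤ H0 ∧ ∀ H : ℕ, H0 ≤ H → ∃ v0 : ℕ, 1 ≤ v0 ∧ ∀ v : ℕ, v0 ≤ v →
      0 < total p q H (v + 1) ∧
      ∀ j : ℕ, ∀ S : Finset ℕ, (∀ i ∈ S, ∃ x : T, idx H v x = j ∧ idx H (v + 1) x = i ∧
        ¬ GoodScale p q ε H (v + 1) x) → S.card ≤ M := by
  obtain ⟨m, hm⟩ := exists_nat_gt (2 / ε)
  have hmR : (0 : ℝ) < m := lt_trans (by positivity) hm
  have hm1 : 1 ≤ m := by
    have : 0 < m := by exact_mod_cast hmR
    omega
  obtain ⟨H0, hH0, hcl⟩ := cluster hp hq hpq m (ε := ε / 2) (by positivity)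
  obtain ⟨H1, hH1⟩ := exists_nat_ge H0
  refine ⟨2 * m, max H1 2, le_max_right _ _, fun H hH => ?_⟩
  have hHH0 : H0 ≤ H := hH1.trans (by exact_mod_cast (le_max_left _ _).trans hH)
  have hH2 : 2 ≤ H := (le_max_right _ _).trans hH
  have hHR : (2 : ℝ) ≤ H := by exact_mod_cast hH2
  have hHpos : (0 : ℝ) < H := by linarith
  obtain ⟨δ, hδ, hcl2⟩ := hcl H hHH0
  obtain ⟨v0, hv0⟩ := pow_unbounded_of_one_lt (1 / δ) (by linarith : (1 : ℝ) < H)
  refine ⟨v0 + 1, by omega, fun v hv => ?_⟩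
  set τ : ℝ := 1 / (H : ℝ) ^ (v + 1) with hτ
  have hτ0 : 0 < τ := by positivity
  have hτδ : τ < δ := by
    rw [hτ, div_lt_iff₀ (by positivity)]
    rw [div_lt_iff₀ hδ] at hv0
    have : (H : ℝ) ^ v0 ≤ (H : ℝ) ^ (v + 1) := pow_le_pow_right₀ (by linarith) (by omega)
    nlinarith
  have e1 : 1 / τ = (H : ℝ) ^ (v + 1) := by rw [hτ, one_div_one_div]
  have e2 : (H : ℝ) / τ = (H : ℝ) ^ (v + 1 + 1) := by
    rw [hτ, pow_succ _ (v + 1)]; field_simp
  obtain ⟨hne, hcl3⟩ := hcl2 τ hτ0 hτδ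
  rw [e1, e2] at hne
  have htot : 0 < total p q H (v + 1) := by
    rw [total_eq]; exact Finset.card_pos.2 hne
  refine ⟨htot, fun j S hS => ?_⟩
  have htotR : (0 : ℝ) < total p q H (v + 1) := by exact_mod_cast htot
  by_contra hcard
  push Not at hcard
  -- a parity class with many elements
  obtain ⟨S', hS'S, hS'm, hS'par⟩ : ∃ S' : Finset ℕ, S' ⊆ S ∧ m ≤ S'.card ∧
      ∀ a ∈ S', ∀ b ∈ S', a < b → a + 2 ≤ b := by
    have h1 : (S.filter fun i => Even i).card + (S.filter fun i => ¬ Even i).card = S.card :=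
      Finset.card_filter_add_card_filter_not _
    rcases le_or_gt m (S.filter fun i => Even i).card with h2 | h2
    · refine ⟨_, Finset.filter_subset _ _, h2, ?_⟩
      intro a ha b hb hab
      rw [Finset.mem_filter] at ha hb
      obtain ⟨a', ha'⟩ := ha.2
      obtain ⟨b', hb'⟩ := hb.2
      omega
    · refine ⟨_, Finset.filter_subset _ _, (by omega : m ≤ (S.filter fun i => ¬ Even i).card), ?_⟩
      intro a ha b hb hab
      rw [Finset.mem_filter] at ha hb
      obtain ⟨a', ha'⟩ := Nat.not_even_iff_odd.1 ha.2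
      obtain ⟨b', hb'⟩ := Nat.not_even_iff_odd.1 hb.2
      omega
  obtain ⟨f⟩ : Nonempty (Fin m ↪ S') := by
    rw [Function.Embedding.nonempty_iff_card_le, Fintype.card_fin, Fintype.card_coe]
    exact hS'm
  have hch : ∀ i : Fin m, ∃ x : T, idx H v x = j ∧ idx H (v + 1) x = (f i : ℕ) ∧
      ¬ GoodScale p q ε H (v + 1) x := fun i => hS _ (hS'S (f i).2)
  choose x hx1 hx2 hx3 using hch
  obtain ⟨α, hα1, hα2, hα3⟩ := hcl3 x (by
    intro a b hab
    have hne' : (f a : ℕ) ≠ (f b : ℕ) := by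
      intro h
      exact hab (f.injective (Subtype.ext h))
    rcases lt_or_gt_of_ne hne' with h | h
    · have h1 := hS'par _ (f a).2 _ (f b).2 h
      rw [← hx2 a, ← hx2 b] at h1
      exact sep hH2 (by omega) ((hx1 a).trans (hx1 b).symm) h1
    · have h1 := hS'par _ (f b).2 _ (f a).2 h
      rw [← hx2 a, ← hx2 b] at h1
      rw [norm_sub_rev]
      exact sep hH2 (by omega) ((hx1 b).trans (hx1 a).symm) h1)
  rw [e1, e2] at hα3
  have hlow : ∀ i, ε / 2 ≤ 1 - α i := by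
    intro i
    obtain ⟨c, r, hr, hlt⟩ := exists_bad_arc (hx3 i)
    have h1 := hα3 i c r hr
    rw [← total_eq] at h1
    have h2 : (2 * r * α i - ε / 2) * (total p q H (v + 1) : ℝ) ≤
        visits p q H (v + 1) (x i) c r := by
      rw [visits_eq]
      convert h1
    have h3 : (2 * r * α i - ε / 2) * (total p q H (v + 1) : ℝ) <
        (2 * r - ε) * (total p q H (v + 1) : ℝ) := h2.trans_lt hlt
    have h4 : 2 * r * α i - ε / 2 < 2 * r - ε := lt_of_mul_lt_mul_right h3 htotR.le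
    have h5 := (hα1 i).2
    have h6 : 2 * r * (1 - α i) ≤ 1 * (1 - α i) :=
      mul_le_mul_of_nonneg_right (by linarith) (by linarith)
    nlinarith
  have hsum : (m : ℝ) * (ε / 2) ≤ ∑ i, (1 - α i) := by
    have := Finset.card_nsmul_le_sum (Finset.univ : Finset (Fin m)) (fun i => 1 - α i) (ε / 2)
      fun i _ => hlow i
    rwa [Finset.card_univ, Fintype.card_fin, nsmul_eq_mul] at this
  have h7 : 1 < (m : ℝ) * (ε / 2) := by
    rw [div_lt_iff₀ hε] at hm
    linarith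
  linarith

end

end Run7.h303.WS
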