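import Mathlib

/-!
Equidistribution of the points `n x` along the integers `n = p ^ i * q ^ j` with
`H ^ k ≤ n < H ^ (k + 1)`.
-/

set_option autoImplicit false

namespace Run7.h303.WS

/-- The number of integers `n = p ^ i * q ^ j` with `H ^ k ≤ n < H ^ (k + 1)`. -/
noncomputable def total (p q H k : ℕ) : ℕ :=
  {n : ℕ | H ^ k ≤ n ∧ n < H ^ (k + 1) ∧ ∃ i j : ℕ, n = p ^ i * q ^ j}.ncard

/-- The number of those for which `n x` lies in the closed arc with centre `c` and radius `r`. -/
noncomputable def visits (p q H k : ℕ) (x c : UnitAddCircle) (r : ℝ) : ℕ :=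
  {n : ℕ | H ^ k ≤ n ∧ n < H ^ (k + 1) ∧ (∃ i j : ℕ, n = p ^ i * q ^ j) ∧
    n • x ∈ Metric.closedBall c r}.ncard

/-- The scale `k` is good for `x`: every closed arc is visited with a frequency within `ε` of its
length. -/
def GoodScale (p q : ℕ) (ε : ℝ) (H k : ℕ) (x : UnitAddCircle) : Prop :=
  ∀ c : UnitAddCircle, ∀ r : ℝ, 0 ≤ r → r ≤ 1 / 2 →
    |(visits p q H k x c r : ℝ) - 2 * r * total p q H k| ≤ ε * total p q H k

/-- The lower density of the good scales for `x`. -/
noncomputable def goodDensity (p q : ℕ) (ε : ℝ) (H : ℕ) (x : UnitAddCircle) : ℝ :=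
  Filter.liminf (fun n : ℕ => ({k : ℕ | k < n ∧ GoodScale p q ε H k x}.ncard : ℝ) / n) Filter.atTop

/-- The representative in `[0, 1)` of a point of the circle. -/
noncomputable def rep (x : UnitAddCircle) : ℝ :=
  ((AddCircle.equivIco (1 : ℝ) 0 x : Set.Ico (0 : ℝ) (0 + 1)) : ℝ)

/-- The index `i` of the `H`-adic arc `[i / H ^ n, (i + 1) / H ^ n)` which contains `x`. -/
noncomputable def idx (H n : ℕ) (x : UnitAddCircle) : ℕ := ⌊(H : ℝ) ^ n * rep x⌋₊

/-- The `H`-adic arc of length `H ^ (-n)` which contains `x`. -/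
def arc (H n : ℕ) (x : UnitAddCircle) : Set UnitAddCircle := {y | idx H n y = idx H n x}

end Run7.h303.WS
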