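import Pool.Agent.Run7.h303.WS.Tree

/-!
Masses of `H`-adic arcs for arbitrary measures: only the good scales make them small.
-/

set_option autoImplicit false

open MeasureTheory Filter Topology Set

namespace Run7.h303.WS

open Pool.Agent.W764.FB Pool.Agent.W764.SH Pool.Agent.W764.HL

lemma rep_measurable : Measurable rep :=
  measurable_subtype_coe.comp (AddCircle.measurableEquivIco (T := (1 : ℝ)) 0).measurable

lemma idx_measurable (H n : ℕ) : Measurable (idx H n) :=
  Nat.measurable_floor.comp (measurable_const.mul rep_measurable)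

/-- the arc with index `i` -/
def cell (H n i : ℕ) : Set T := {y | idx H n y = i}

lemma cell_measurable (H n i : ℕ) : MeasurableSet (cell H n i) :=
  idx_measurable H n (measurableSet_singleton i)

lemma cell_sub {H : ℕ} (hH : 1 ≤ H) (n i : ℕ) : cell H (n + 1) i ⊆ cell H n (i / H) := by
  intro y hy
  have h : idx H (n + 1) y = i := hy
  show idx H n y = i / H
  rw [← idx_succ hH, h]

section
variable (p q : ℕ) (ε : ℝ) (H : ℕ) (g : ℕ → ℕ → ℝ)

open Classical in
/-- weights of the arcs -/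
noncomputable def gwt : ℕ → ℕ → ℝ
  | 0, _ => 1
  | (v + 1), i => gwt v (i / H) * (if BadCell p q ε H (v + 1) i then (1 : ℝ) else g (v + 1) i)

variable {p q ε H g}

lemma gwt_nonneg (hg : ∀ v i, 0 ≤ g v i) (v i : ℕ) : 0 ≤ gwt p q ε H g v i := by
  induction v generalizing i with
  | zero => exact zero_le_one
  | succ v ih =>
    unfold gwt
    have := ih (i / H)
    have := hg (v + 1) i
    split_ifs <;> positivity

lemma gwt_le_one (hg : ∀ v i, 0 ≤ g v i) (hg1 : ∀ v i, g (v + 1) i ≤ 1) (v i : ℕ) :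
    gwt p q ε H g v i ≤ 1 := by
  induction v generalizing i with
  | zero => exact le_rfl
  | succ v ih =>
    unfold gwt
    split_ifs
    · rw [mul_one]; exact ih _
    · calc gwt p q ε H g v (i / H) * g (v + 1) i ≤ 1 * 1 :=
            mul_le_mul (ih _) (hg1 v i) (hg _ _) zero_le_one
        _ = 1 := one_mul 1

open Classical in
lemma gwt_ge (hH : 1 ≤ H) (hg : ∀ v i, 0 ≤ g v i) (hg1 : ∀ v i, g (v + 1) i ≤ 1) (v : ℕ) (x : T) :
    ∏ k ∈ (Finset.Icc 1 v).filter (fun k => GoodScale p q ε H k x), g k (idx H k x) ≤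
      gwt p q ε H g v (idx H v x) := by
  induction v with
  | zero => simp [gwt]
  | succ v ih =>
    unfold gwt
    rw [idx_succ hH]
    have hI : Finset.Icc 1 (v + 1) = insert (v + 1) (Finset.Icc 1 v) := by
      ext k; simp only [Finset.mem_Icc, Finset.mem_insert]; omega
    have hnot : v + 1 ∉ (Finset.Icc 1 v).filter (fun k => GoodScale p q ε H k x) := by simp
    have hprod : 0 ≤ ∏ k ∈ (Finset.Icc 1 v).filter (fun k => GoodScale p q ε H k x),
        g k (idx H k x) := Finset.prod_nonneg fun k _ => hg k _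
    rw [hI, Finset.filter_insert]
    by_cases hb : BadCell p q ε H (v + 1) (idx H (v + 1) x)
    · rw [if_pos hb, mul_one]
      refine le_trans ?_ ih
      split_ifs with hgood
      · rw [Finset.prod_insert hnot]
        exact mul_le_of_le_one_left hprod (hg1 v _)
      · exact le_rfl
    · have hgd : GoodScale p q ε H (v + 1) x := by
        by_contra hng
        exact hb ⟨x, rfl, hng⟩
      rw [if_neg hb, if_pos hgd, Finset.prod_insert hnot, mul_comm]
      exact mul_le_mul_of_nonneg_right ih (hg _ _)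

open Classical in
lemma gsum_succ (hH : 1 ≤ H) (v : ℕ) :
    ∑ i ∈ Finset.range (H ^ (v + 1)), gwt p q ε H g (v + 1) i =
      ∑ j ∈ Finset.range (H ^ v), gwt p q ε H g v j *
        ∑ i ∈ (Finset.range (H ^ (v + 1))).filter (fun i => i / H = j),
          (if BadCell p q ε H (v + 1) i then (1 : ℝ) else g (v + 1) i) := by
  rw [← Finset.sum_fiberwise_of_maps_to (s := Finset.range (H ^ (v + 1)))
    (t := Finset.range (H ^ v)) (g := fun i => i / H)]
  · refine Finset.sum_congr rfl fun j _ => ?_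
    rw [Finset.mul_sum]
    refine Finset.sum_congr rfl fun i hi => ?_
    rw [Finset.mem_filter] at hi
    have h1 : gwt p q ε H g (v + 1) i =
      gwt p q ε H g v (i / H) *
        (if BadCell p q ε H (v + 1) i then (1 : ℝ) else g (v + 1) i) := rfl
    rw [h1, hi.2]
  · intro i hi
    rw [Finset.mem_range] at hi ⊢
    rw [Nat.div_lt_iff_lt_mul (by omega)]
    rw [pow_succ] at hi
    exact hi

open Classical in
/-- the total weight -/
lemma gsum_le (hH : 1 ≤ H) (hg : ∀ v i, 0 ≤ g v i) (hg1 : ∀ v i, g (v + 1) i ≤ 1)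
    (hgs : ∀ v j, ∑ i ∈ (Finset.range (H ^ (v + 1))).filter (fun i => i / H = j),
      g (v + 1) i ≤ 1) {M v0 : ℕ} (hM : ∀ v : ℕ, v0 ≤ v →
      ∀ j : ℕ, ∀ S : Finset ℕ, (∀ i ∈ S, ∃ x : T, idx H v x = j ∧ idx H (v + 1) x = i ∧
        ¬ GoodScale p q ε H (v + 1) x) → S.card ≤ M) (v : ℕ) :
    ∑ i ∈ Finset.range (H ^ v), gwt p q ε H g v i ≤ (H : ℝ) ^ v0 * ((M : ℝ) + 1) ^ v := by
  have hHR : (1 : ℝ) ≤ H := by exact_mod_cast hH
  have hMR : (1 : ℝ) ≤ (M : ℝ) + 1 := by
    have : (0 : ℝ) ≤ M := Nat.cast_nonneg M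
    linarith
  have hbase : ∀ v, v ≤ v0 → ∑ i ∈ Finset.range (H ^ v), gwt p q ε H g v i ≤
      (H : ℝ) ^ v0 * ((M : ℝ) + 1) ^ v := by
    intro v hv
    calc ∑ i ∈ Finset.range (H ^ v), gwt p q ε H g v i
        ≤ ∑ i ∈ Finset.range (H ^ v), (1 : ℝ) := Finset.sum_le_sum fun i _ => gwt_le_one hg hg1 v i
      _ = (H : ℝ) ^ v := by rw [Finset.sum_const, Finset.card_range]; simp
      _ ≤ (H : ℝ) ^ v0 := pow_le_pow_right₀ hHR hv
      _ = (H : ℝ) ^ v0 * 1 := (mul_one _).symm
      _ ≤ (H : ℝ) ^ v0 * ((M : ℝ) + 1) ^ v :=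
          mul_le_mul_of_nonneg_left (one_le_pow₀ hMR) (by positivity)
  rcases le_or_gt v v0 with hv | hv
  · exact hbase v hv
  · have hv' : v0 ≤ v := hv.le
    clear hv
    induction v, hv' using Nat.le_induction with
    | base => exact hbase v0 le_rfl
    | succ v hv ih =>
      rw [gsum_succ hH]
      have hinner : ∀ j : ℕ, ∑ i ∈ (Finset.range (H ^ (v + 1))).filter (fun i => i / H = j),
          (if BadCell p q ε H (v + 1) i then (1 : ℝ) else g (v + 1) i) ≤ (M : ℝ) + 1 := by
        intro j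
        set S := (Finset.range (H ^ (v + 1))).filter (fun i => i / H = j) with hS
        have h1 : ∀ i ∈ S, (if BadCell p q ε H (v + 1) i then (1 : ℝ) else g (v + 1) i) ≤
            (if BadCell p q ε H (v + 1) i then 1 else 0) + g (v + 1) i := by
          intro i _
          have := hg (v + 1) i
          split_ifs <;> linarith
        refine (Finset.sum_le_sum h1).trans ?_
        rw [Finset.sum_add_distrib]
        have h2 : ∑ i ∈ S, (if BadCell p q ε H (v + 1) i then (1 : ℝ) else 0) =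
            ((S.filter fun i => BadCell p q ε H (v + 1) i).card : ℝ) := by
          rw [Finset.card_filter]; push_cast; rfl
        rw [h2]
        have h3 : (S.filter fun i => BadCell p q ε H (v + 1) i).card ≤ M := by
          refine hM v hv j _ fun i hi => ?_
          rw [Finset.mem_filter, hS, Finset.mem_filter] at hi
          obtain ⟨⟨-, hij⟩, x, hx1, hx2⟩ := hi
          refine ⟨x, ?_, hx1, hx2⟩
          rw [← idx_succ hH, hx1, hij]
        have h6 : ((S.filter fun i => BadCell p q ε H (v + 1) i).card : ℝ) ≤ M := by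
          exact_mod_cast h3
        have h7 := hgs v j
        linarith
      calc ∑ j ∈ Finset.range (H ^ v), gwt p q ε H g v j *
            ∑ i ∈ (Finset.range (H ^ (v + 1))).filter (fun i => i / H = j),
              (if BadCell p q ε H (v + 1) i then (1 : ℝ) else g (v + 1) i)
          ≤ ∑ j ∈ Finset.range (H ^ v), gwt p q ε H g v j * ((M : ℝ) + 1) :=
            Finset.sum_le_sum fun j _ => mul_le_mul_of_nonneg_left (hinner j) (gwt_nonneg hg v j)
        _ = (∑ j ∈ Finset.range (H ^ v), gwt p q ε H g v j) * ((M : ℝ) + 1) := by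
            rw [Finset.sum_mul]
        _ ≤ ((H : ℝ) ^ v0 * ((M : ℝ) + 1) ^ v) * ((M : ℝ) + 1) :=
            mul_le_mul_of_nonneg_right ih (by linarith)
        _ = (H : ℝ) ^ v0 * ((M : ℝ) + 1) ^ (v + 1) := by ring

/-- the arcs of almost every point are not much smaller than their weights -/
lemma ae_weight (hH : 1 ≤ H) {ν : Measure T} [IsProbabilityMeasure ν] {w : ℕ → ℕ → ℝ}
    (hw : ∀ n i, 0 ≤ w n i) {A B l : ℝ} (hA : 0 ≤ A) (hB : 0 ≤ B) (hl : 0 ≤ l) (hlB : l * B < 1)
    (hs : ∀ n, ∑ i ∈ Finset.range (H ^ n), w n i ≤ A * B ^ n) :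
    ∀ᵐ x ∂ν, ∀ᶠ n : ℕ in atTop, l ^ n * w n (idx H n x) ≤ ν.real (cell H n (idx H n x)) := by
  classical
  set S : ℕ → Set T := fun n => {x | ν.real (cell H n (idx H n x)) < l ^ n * w n (idx H n x)}
    with hS
  have hSle : ∀ n, ν (S n) ≤ ENNReal.ofReal (A * (l * B) ^ n) := by
    intro n
    set Bn := (Finset.range (H ^ n)).filter fun i => ν.real (cell H n i) < l ^ n * w n i with hBn
    have h1 : S n ⊆ ⋃ i ∈ Bn, cell H n i := by
      intro x hx
      rw [Set.mem_iUnion₂]
      refine ⟨idx H n x, ?_, rfl⟩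
      rw [hBn, Finset.mem_filter, Finset.mem_range]
      exact ⟨idx_lt hH n x, hx⟩
    calc ν (S n) ≤ ν (⋃ i ∈ Bn, cell H n i) := measure_mono h1
      _ ≤ ∑ i ∈ Bn, ν (cell H n i) := measure_biUnion_finset_le _ _
      _ ≤ ∑ i ∈ Bn, ENNReal.ofReal (l ^ n * w n i) := by
          refine Finset.sum_le_sum fun i hi => ?_
          rw [hBn, Finset.mem_filter] at hi
          rw [ENNReal.le_ofReal_iff_toReal_le (measure_ne_top _ _)
            (mul_nonneg (by positivity) (hw n i))]
          exact hi.2.le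
      _ = ENNReal.ofReal (∑ i ∈ Bn, l ^ n * w n i) := by
          rw [ENNReal.ofReal_sum_of_nonneg fun i _ => mul_nonneg (by positivity) (hw n i)]
      _ ≤ ENNReal.ofReal (A * (l * B) ^ n) := by
          refine ENNReal.ofReal_le_ofReal ?_
          rw [← Finset.mul_sum]
          have h2 : ∑ i ∈ Bn, w n i ≤ A * B ^ n :=
            (Finset.sum_le_sum_of_subset_of_nonneg (Finset.filter_subset _ _)
              fun i _ _ => hw n i).trans (hs n)
          calc l ^ n * ∑ i ∈ Bn, w n i ≤ l ^ n * (A * B ^ n) :=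
                mul_le_mul_of_nonneg_left h2 (by positivity)
            _ = A * (l * B) ^ n := by rw [mul_pow]; ring
  have hsum : (∑' n, ν (S n)) ≠ ⊤ := by
    refine ne_top_of_le_ne_top ?_ (ENNReal.tsum_le_tsum hSle)
    refine Summable.tsum_ofReal_ne_top ?_
    exact (summable_geometric_of_lt_one (by positivity) hlB).mul_left A
  filter_upwards [ae_eventually_notMem hsum] with x hx
  filter_upwards [hx] with n hn
  have h1 : ¬ (ν.real (cell H n (idx H n x)) < l ^ n * w n (idx H n x)) := hn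
  exact not_lt.1 h1

/-- conditional masses -/
noncomputable def cm (H : ℕ) (ρ : Measure T) (v i : ℕ) : ℝ :=
  ρ.real (cell H v i) / ρ.real (cell H (v - 1) (i / H))

lemma cm_sum (hH : 1 ≤ H) (ρ : Measure T) [IsProbabilityMeasure ρ] (v j : ℕ) :
    ∑ i ∈ (Finset.range (H ^ (v + 1))).filter (fun i => i / H = j), cm H ρ (v + 1) i ≤ 1 := by
  classical
  set S := (Finset.range (H ^ (v + 1))).filter (fun i => i / H = j) with hS
  have h1 : ∑ i ∈ S, cm H ρ (v + 1) i = (∑ i ∈ S, ρ.real (cell H (v + 1) i)) /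
      ρ.real (cell H v j) := by
    rw [Finset.sum_div]
    refine Finset.sum_congr rfl fun i hi => ?_
    rw [hS, Finset.mem_filter] at hi
    unfold cm
    rw [Nat.add_sub_cancel, hi.2]
  rw [h1]
  refine div_le_one_of_le₀ ?_ measureReal_nonneg
  have h2 : ∑ i ∈ S, ρ.real (cell H (v + 1) i) = ρ.real (⋃ i ∈ S, cell H (v + 1) i) := by
    rw [measureReal_biUnion_finset]
    · intro a _ b _ hab
      rw [Function.onFun, Set.disjoint_left]
      intro x hx hx'
      exact hab ((show idx H (v + 1) x = a from hx).symm.trans hx')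
    · intro i _
      exact cell_measurable H _ i
  rw [h2]
  refine measureReal_mono ?_ (measure_ne_top _ _)
  intro x hx
  rw [Set.mem_iUnion₂] at hx
  obtain ⟨i, hi, hx⟩ := hx
  rw [hS, Finset.mem_filter] at hi
  have := cell_sub hH v i hx
  rw [hi.2] at this
  exact this

lemma cm_nonneg (H : ℕ) (ρ : Measure T) (v i : ℕ) : 0 ≤ cm H ρ v i :=
  div_nonneg measureReal_nonneg measureReal_nonneg

lemma cm_le_one (hH : 1 ≤ H) (ρ : Measure T) [IsProbabilityMeasure ρ] (v i : ℕ) :
    cm H ρ (v + 1) i ≤ 1 :=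
  div_le_one_of_le₀ (measureReal_mono (cell_sub hH v i) (measure_ne_top _ _)) measureReal_nonneg

end

section
variable {p q : ℕ} (hp : 2 ≤ p) (hq : 2 ≤ q)
include hp hq

open Classical in
/-- **Only the good scales make the arcs small.** -/
theorem arcs_mass (hpq : Nat.Coprime p q) {ε : ℝ} (hε : 0 < ε) :
    ∃ H0 : ℕ, ∀ H : ℕ, H0 ≤ H → ∀ ν ρ : Measure T, IsProbabilityMeasure ν →
      IsProbabilityMeasure ρ → ∀ᵐ x ∂ν, ∀ᶠ n : ℕ in atTop,
        (H : ℝ) ^ (-(ε * n)) * ∏ k ∈ (Finset.Icc 1 n).filter (fun k => GoodScale p q ε H k x),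
          (ρ.real (arc H k x) / ρ.real (arc H (k - 1) x)) ≤ ν.real (arc H n x) := by
  obtain ⟨M, H0, hH0, hM⟩ := bad_children hp hq hpq hε
  have hMR : (1 : ℝ) ≤ (M : ℝ) + 1 := by
    have : (0 : ℝ) ≤ M := Nat.cast_nonneg M
    linarith
  obtain ⟨H1, hH1⟩ := exists_nat_gt (((M : ℝ) + 1) ^ (1 / ε))
  refine ⟨max H0 H1, fun H hH ν ρ hν hρ => ?_⟩
  have hHH0 : H0 ≤ H := (le_max_left _ _).trans hH
  have hHH1 : (H1 : ℝ) ≤ H := by exact_mod_cast (le_max_right _ _).trans hH
  obtain ⟨v0, -, hv0⟩ := hM H hHH0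
  have hH2 : 2 ≤ H := hH0.trans hHH0
  have hHR : (2 : ℝ) ≤ H := by exact_mod_cast hH2
  have hHpos : (0 : ℝ) < H := by linarith
  set l : ℝ := (H : ℝ) ^ (-ε) with hl
  have hl0 : 0 < l := Real.rpow_pos_of_pos hHpos _
  have hlM : l * ((M : ℝ) + 1) < 1 := by
    have h1 : (M : ℝ) + 1 < (H : ℝ) ^ ε := by
      have h2 : ((M : ℝ) + 1) ^ (1 / ε) < H := hH1.trans_le hHH1
      have h3 := Real.rpow_lt_rpow (by positivity) h2 hε
      rw [← Real.rpow_mul (by positivity), one_div, inv_mul_cancel₀ hε.ne', Real.rpow_one] at h3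
      exact h3
    rw [hl, Real.rpow_neg hHpos.le, inv_mul_lt_iff₀ (Real.rpow_pos_of_pos hHpos _), mul_one]
    exact h1
  have hae := ae_weight (H := H) (by omega) (ν := ν)
    (w := gwt p q ε H (cm H ρ)) (fun n i => gwt_nonneg (cm_nonneg H ρ) n i)
    (A := (H : ℝ) ^ v0) (B := (M : ℝ) + 1) (l := l) (by positivity) (by positivity) hl0.le hlM
    (fun n => gsum_le (by omega) (cm_nonneg H ρ) (cm_le_one (by omega) ρ) (cm_sum (by omega) ρ)
      (fun v hv => (hv0 v hv).2) n)
  filter_upwards [hae] with x hx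
  filter_upwards [hx] with n hn
  have h1 : (H : ℝ) ^ (-(ε * n)) = l ^ n := by
    rw [hl, ← Real.rpow_natCast, ← Real.rpow_mul hHpos.le]
    congr 1
    ring
  rw [h1]
  refine le_trans (mul_le_mul_of_nonneg_left ?_ (by positivity)) hn
  have h2 := gwt_ge (p := p) (q := q) (ε := ε) (H := H) (g := cm H ρ) (by omega) (cm_nonneg H ρ)
    (cm_le_one (by omega) ρ) n x
  refine le_trans (le_of_eq ?_) h2
  refine Finset.prod_congr rfl fun k hk => ?_
  rw [Finset.mem_filter, Finset.mem_Icc] at hk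
  obtain ⟨k', rfl⟩ : ∃ k', k = k' + 1 := ⟨k - 1, by omega⟩
  unfold cm
  rw [Nat.add_sub_cancel, idx_succ (by omega)]
  rfl

end

end Run7.h303.WS
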