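import Pool.Agent.Run7.h303.WS.Tree

/-!
Points with long runs of zero digits have long runs of bad scales.
-/

set_option autoImplicit false

open MeasureTheory Filter Topology Set

namespace Run7.h303.WS

open Pool.Agent.W764.FB Pool.Agent.W764.SH Pool.Agent.W764.HL Pool.Agent.Y314.FD

section
variable {p q : ℕ} (hp : 2 ≤ p) (hq : 2 ≤ q)
include hp hq

lemma log_mem {H v : ℕ} (hH : 2 ≤ H) (u : ℕ × ℕ) :
    (v * Real.log H ≤ u.1 * Real.log p + u.2 * Real.log q ∧
      u.1 * Real.log p + u.2 * Real.log q < v * Real.log H + Real.log H) ↔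
    ((H : ℝ) ^ v ≤ mul p q u ∧ (mul p q u : ℝ) < (H : ℝ) ^ (v + 1)) := by
  have hH0 : (0 : ℝ) < H := by
    have : 0 < H := by omega
    exact_mod_cast this
  have hm := mul_pos' hp hq u
  rw [← mul_log hp hq u]
  have e1 : (v : ℝ) * Real.log H = Real.log ((H : ℝ) ^ v) := by rw [Real.log_pow]
  have e2 : (v : ℝ) * Real.log H + Real.log H = Real.log ((H : ℝ) ^ (v + 1)) := by
    rw [Real.log_pow]; push_cast; ring
  rw [e2, e1, Real.log_le_log_iff (by positivity) hm, Real.log_lt_log_iff hm (by positivity)]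

/-- **Runs of zeros give bad scales.** -/
theorem run_bad (hpq : Nat.Coprime p q) {κ : ℝ} (hκ : 0 < κ) {H : ℕ} (hH : 2 ≤ H)
    (hHq : 3 * Real.log q ≤ Real.log H) (hHp : Real.log p ≤ Real.log H) {n1 n2 D v : ℕ}
    (hD : n1 + D ≤ n2) {x : T} (hx : ‖p ^ n1 • x‖ ≤ 1 / (p : ℝ) ^ (n2 - n1))
    (hρ : 1 / (p : ℝ) ^ D < κ / (6 * (1 + κ)) / 4) (hv : 1 ≤ v)
    (hv1 : (1 + κ) * n1 * Real.log p ≤ v * Real.log H)
    (hv2 : ((v : ℝ) + 1) * Real.log H ≤ ((n2 : ℝ) - D) * Real.log p) :
    ¬ GoodScale p q (κ / (6 * (1 + κ)) / 4) H v x := by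
  classical
  intro hgood
  obtain ⟨hlp, hlq⟩ := log_pos' hp hq
  have hirr := irr_of_coprime hp hq hpq
  set c := κ / (6 * (1 + κ)) with hc
  have hc0 : 0 < c := by positivity
  have hc1 : c ≤ 1 := by
    rw [hc, div_le_one (by positivity)]; linarith
  have hp0 : (0 : ℝ) < p := by
    have : 0 < p := by omega
    exact_mod_cast this
  have hH0 : (0 : ℝ) < H := by
    have : 0 < H := by omega
    exact_mod_cast this
  have hlH : 0 < Real.log H := hlp.trans_le hHp
  have hvR : (1 : ℝ) ≤ v := by exact_mod_cast hv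
  set W := win p q ((H : ℝ) ^ v) ((H : ℝ) ^ (v + 1)) with hW
  -- the total number
  set A : ℕ := ⌊((v : ℝ) + 1) * Real.log H / Real.log p⌋₊ + 1 with hA
  set X : ℝ := v * (Real.log H / Real.log p) with hX
  have hHp1 : 1 ≤ Real.log H / Real.log p := by rw [le_div_iff₀ hlp]; linarith
  have hX1 : 1 ≤ X := by rw [hX]; nlinarith
  have hHq1 : 3 ≤ Real.log H / Real.log q := by rw [le_div_iff₀ hlq]; linarith
  have hAle : (A : ℝ) ≤ 3 * X := by
    have h1 : (⌊((v : ℝ) + 1) * Real.log H / Real.log p⌋₊ : ℝ) ≤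
      ((v : ℝ) + 1) * Real.log H / Real.log p := Nat.floor_le (by positivity)
    rw [hA]; push_cast
    have e : ((v : ℝ) + 1) * Real.log H / Real.log p = X + Real.log H / Real.log p := by
      rw [hX]; ring
    have h2 : Real.log H / Real.log p ≤ X := by
      rw [hX]
      have : 1 * (Real.log H / Real.log p) ≤ v * (Real.log H / Real.log p) :=
        mul_le_mul_of_nonneg_right hvR (by positivity)
      linarith
    linarith
  have htot : (W.card : ℝ) ≤ 3 * X * (Real.log H / Real.log q + 1) := by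
    have hsub : W ⊆ (slw (Real.log p) (Real.log q) (Finset.range A) (v * Real.log H)
        (Real.log H)).image (mul p q) := by
      intro n hn
      rw [hW, mem_win] at hn
      obtain ⟨⟨a, b, rfl⟩, h1, h2⟩ := hn
      rw [Finset.mem_image]
      refine ⟨(a, b), ?_, rfl⟩
      rw [mem_slw hlp hlq]
      have h3 := (log_mem hp hq (v := v) hH (a, b)).2 ⟨h1, h2⟩
      refine ⟨?_, h3.1, h3.2⟩
      rw [Finset.mem_range, hA]
      have h4 : (a : ℝ) * Real.log p ≤ ((v : ℝ) + 1) * Real.log H := by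
        have h5 := h3.2
        simp only at h5
        have h6 : 0 ≤ (b : ℝ) * Real.log q := by positivity
        linarith
      have h5 : (a : ℝ) ≤ ((v : ℝ) + 1) * Real.log H / Real.log p := by
        rw [le_div_iff₀ hlp]; exact h4
      exact Nat.lt_succ_of_le (Nat.le_floor h5)
    have h1 : (W.card : ℝ) ≤ (slw (Real.log p) (Real.log q) (Finset.range A) (v * Real.log H)
        (Real.log H)).card := by
      exact_mod_cast (Finset.card_le_card hsub).trans Finset.card_image_le
    refine h1.trans ((card_slw_le hlp hlq _ _ hlH.le).trans ?_)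
    rw [Finset.card_range]
    exact mul_le_mul_of_nonneg_right hAle (by positivity)
  -- the elements with a large exponent of `p`
  set B : ℕ := ⌊X⌋₊ + 1 with hB
  set U := slw (Real.log p) (Real.log q) (Finset.Ico n1 B) (v * Real.log H) (Real.log H) with hU
  have hn1X : (1 + κ) * n1 ≤ X := by
    rw [hX]
    rw [← mul_div_assoc, le_div_iff₀ hlp]
    exact hv1
  have hUcard : (κ / (1 + κ) * X) * (Real.log H / Real.log q - 1) ≤ (U.card : ℝ) := by
    have h1 := le_card_slw hlp hlq (A := Finset.Ico n1 B) (x := v * Real.log H) (Real.log H) (by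
      intro a ha
      rw [Finset.mem_Ico, hB] at ha
      have h2 : a ≤ ⌊X⌋₊ := by omega
      have h3 : (a : ℝ) ≤ X := (Nat.le_floor_iff (by linarith)).1 h2
      rw [hX, ← mul_div_assoc, le_div_iff₀ hlp] at h3
      exact h3)
    refine le_trans ?_ h1
    refine mul_le_mul_of_nonneg_right ?_ (by linarith)
    rw [Nat.card_Ico]
    have h2 : X < B := by rw [hB]; push_cast; exact Nat.lt_floor_add_one X
    have h3 : (B : ℝ) - n1 ≤ ((B - n1 : ℕ) : ℝ) := by
      rw [sub_le_iff_le_add]
      have : B ≤ (B - n1) + n1 := by omega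
      exact_mod_cast this
    refine le_trans ?_ h3
    have h4 : (n1 : ℝ) ≤ X / (1 + κ) := by
      rw [le_div_iff₀ (by positivity)]; linarith
    have h5 : κ / (1 + κ) * X = X - X / (1 + κ) := by field_simp; ring
    rw [h5]; linarith
  have hratio : c * (W.card : ℝ) ≤ U.card := by
    refine le_trans ?_ hUcard
    refine (mul_le_mul_of_nonneg_left htot hc0.le).trans ?_
    have h1 : Real.log H / Real.log q + 1 ≤ 2 * (Real.log H / Real.log q - 1) := by linarith
    have h2 : 3 * X * (Real.log H / Real.log q + 1) ≤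
        3 * X * (2 * (Real.log H / Real.log q - 1)) :=
      mul_le_mul_of_nonneg_left h1 (by linarith)
    refine (mul_le_mul_of_nonneg_left h2 hc0.le).trans (le_of_eq ?_)
    rw [hc]
    have h6 : (6 * (1 + κ)) ≠ 0 := by positivity
    have h7 : (1 + κ) ≠ 0 := by positivity
    field_simp
    ring
  have hWpos : (0 : ℝ) < W.card := by
    have h1 : (0 : ℝ) < (κ / (1 + κ) * X) * (Real.log H / Real.log q - 1) := by
      have : 0 < Real.log H / Real.log q - 1 := by linarith
      positivity
    have h2 : U.image (mul p q) ⊆ W := by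
      intro n hn
      obtain ⟨u, hu, rfl⟩ := Finset.mem_image.1 hn
      rw [hU, mem_slw hlp hlq] at hu
      have h3 := (log_mem hp hq (v := v) hH u).1 ⟨hu.2.1, hu.2.2⟩
      rw [hW, mem_win]
      exact ⟨⟨u.1, u.2, rfl⟩, h3.1, h3.2⟩
    have h3 : 0 < U.card := by
      have : (0 : ℝ) < U.card := h1.trans_le hUcard
      exact_mod_cast this
    obtain ⟨u, hu⟩ := Finset.card_pos.1 h3
    have : 0 < W.card := Finset.card_pos.2 ⟨_, h2 (Finset.mem_image_of_mem _ hu)⟩
    exact_mod_cast this
  -- the visits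
  have hvis : (visits p q H v x ((1 / 2 : ℝ) : T) (1 / 2 - c / 4) : ℝ) + U.card ≤ W.card := by
    have hinj : Function.Injective (mul p q) := pow_mul_inj hp hq hirr
    have h0 : (U.image (mul p q)).card = U.card := Finset.card_image_of_injective _ hinj
    have hdisj : Disjoint (W.filter fun n => ‖n • x - ((1 / 2 : ℝ) : T)‖ ≤ 1 / 2 - c / 4)
        (U.image (mul p q)) := by
      rw [Finset.disjoint_left]
      intro n hn hn'
      rw [Finset.mem_filter] at hn
      obtain ⟨u, hu, rfl⟩ := Finset.mem_image.1 hn'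
      rw [hU, mem_slw hlp hlq, Finset.mem_Ico] at hu
      obtain ⟨⟨hu1, -⟩, hu2, hu3⟩ := hu
      have e : mul p q u = p ^ n1 * mul p q (u.1 - n1, u.2) := by
        unfold mul
        simp only
        rw [← mul_assoc, ← pow_add]
        congr 2
        omega
      have h1 : ‖mul p q u • x‖ ≤ 1 / (p : ℝ) ^ D := by
        have e' : mul p q u • x = mul p q (u.1 - n1, u.2) • (p ^ n1 • x) := by
          rw [← mul_smul, e, mul_comm]
        rw [e']
        refine (norm_nsmul_le' _ _).trans ?_
        have h2 : (mul p q u : ℝ) < (H : ℝ) ^ (v + 1) :=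
          ((log_mem hp hq (v := v) hH u).1 ⟨hu2, hu3⟩).2
        have h3 : (H : ℝ) ^ (v + 1) ≤ (p : ℝ) ^ (n2 - D) := by
          rw [← Real.log_le_log_iff (by positivity) (by positivity), Real.log_pow, Real.log_pow]
          push_cast [Nat.cast_sub (by omega : D ≤ n2)]
          linarith
        have h4 : (mul p q (u.1 - n1, u.2) : ℝ) ≤ (p : ℝ) ^ (n2 - D) / (p : ℝ) ^ n1 := by
          rw [le_div_iff₀ (by positivity)]
          have h5 : (mul p q u : ℝ) = (p : ℝ) ^ n1 * mul p q (u.1 - n1, u.2) := by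
            rw [e]; push_cast; ring
          rw [mul_comm, ← h5]
          linarith
        calc (mul p q (u.1 - n1, u.2) : ℝ) * ‖p ^ n1 • x‖
            ≤ ((p : ℝ) ^ (n2 - D) / (p : ℝ) ^ n1) * (1 / (p : ℝ) ^ (n2 - n1)) :=
              mul_le_mul h4 hx (norm_nonneg _) (by positivity)
          _ = 1 / (p : ℝ) ^ D := by
              have e3 : (p : ℝ) ^ n2 = (p : ℝ) ^ (n2 - D) * (p : ℝ) ^ D := by
                rw [← pow_add]; congr 1; omega
              have e4 : (p : ℝ) ^ n2 = (p : ℝ) ^ n1 * (p : ℝ) ^ (n2 - n1) := by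
                rw [← pow_add]; congr 1; omega
              rw [div_mul_div_comm, mul_one, ← e4, e3]
              field_simp
      have h2 := hn.2
      have h3 : ‖((1 / 2 : ℝ) : T)‖ = 1 / 2 := by
        rw [norm_coe_half (by rw [abs_of_nonneg (by norm_num)]), abs_of_nonneg (by norm_num)]
      have h4 : ‖((1 / 2 : ℝ) : T)‖ ≤ ‖mul p q u • x‖ + ‖mul p q u • x - ((1 / 2 : ℝ) : T)‖ := by
        have h5 := norm_sub_norm_le (((1 / 2 : ℝ)) : T) (mul p q u • x)
        rw [norm_sub_rev] at h5
        linarith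
      rw [h3] at h4
      linarith
    have h2 : (W.filter fun n => ‖n • x - ((1 / 2 : ℝ) : T)‖ ≤ 1 / 2 - c / 4) ∪
        (U.image (mul p q)) ⊆ W := by
      refine Finset.union_subset (Finset.filter_subset _ _) ?_
      intro n hn
      obtain ⟨u, hu, rfl⟩ := Finset.mem_image.1 hn
      rw [hU, mem_slw hlp hlq] at hu
      have h3 := (log_mem hp hq (v := v) hH u).1 ⟨hu.2.1, hu.2.2⟩
      rw [hW, mem_win]
      exact ⟨⟨u.1, u.2, rfl⟩, h3.1, h3.2⟩
    have h3 := Finset.card_le_card h2
    rw [Finset.card_union_of_disjoint hdisj, h0] at h3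
    have h4 : visits p q H v x ((1 / 2 : ℝ) : T) (1 / 2 - c / 4) =
        (W.filter fun n => ‖n • x - ((1 / 2 : ℝ) : T)‖ ≤ 1 / 2 - c / 4).card := by
      rw [visits_eq]
    rw [h4]
    exact_mod_cast h3
  have h1 := hgood ((1 / 2 : ℝ) : T) (1 / 2 - c / 4) (by linarith) (by linarith)
  rw [total_eq, ← hW, abs_le] at h1
  have h2 := h1.1
  have h3 : (visits p q H v x ((1 / 2 : ℝ) : T) (1 / 2 - c / 4) : ℝ) ≤
      W.card - c * W.card := by linarith
  have h4 : 0 < c * (W.card : ℝ) := by positivity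
  nlinarith

end

end Run7.h303.WS
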