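import Pool.Agent.Run7.h303.WS.Low

/-!
The Hausdorff dimension of the set of points with few good scales.
-/

set_option autoImplicit false

open MeasureTheory Filter Topology Set
open scoped ENNReal

namespace Run7.h303.WS

open Pool.Agent.W764.FB Pool.Agent.W764.SH Pool.Agent.W764.HL Pool.Agent.Y314.FD

section
variable {p q : ℕ}

open Classical in
lemma count_eq (ε : ℝ) (H n : ℕ) (x : T) : {k : ℕ | k < n ∧ GoodScale p q ε H k x}.ncard =
    ((Finset.range n).filter fun k => GoodScale p q ε H k x).card := by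
  rw [← Set.ncard_coe_finset]
  congr 1
  ext k
  rw [Finset.mem_coe, Finset.mem_filter, Finset.mem_range]
  rfl

lemma good_mono {ε ε' : ℝ} (h : ε ≤ ε') {H k : ℕ} {x : T} (hg : GoodScale p q ε H k x) :
    GoodScale p q ε' H k x := by
  intro c r hr0 hr
  exact (hg c r hr0 hr).trans (mul_le_mul_of_nonneg_right h (Nat.cast_nonneg _))

open Classical in
lemma count_le (ε : ℝ) (H n : ℕ) (x : T) :
    ({k : ℕ | k < n ∧ GoodScale p q ε H k x}.ncard : ℝ) / n ≤ 1 := by
  rw [count_eq]
  refine div_le_one_of_le₀ ?_ (Nat.cast_nonneg _)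
  have := Finset.card_filter_le (Finset.range n) fun k => GoodScale p q ε H k x
  rw [Finset.card_range] at this
  exact_mod_cast this

lemma count_nonneg (ε : ℝ) (H n : ℕ) (x : T) :
    0 ≤ ({k : ℕ | k < n ∧ GoodScale p q ε H k x}.ncard : ℝ) / n := by positivity

lemma cobdd (ε : ℝ) (H : ℕ) (x : T) : IsCoboundedUnder (· ≥ ·) atTop
    fun n : ℕ => ({k : ℕ | k < n ∧ GoodScale p q ε H k x}.ncard : ℝ) / n := by
  refine IsBoundedUnder.isCoboundedUnder_ge ?_
  exact ⟨1, eventually_map.2 (Eventually.of_forall fun n => count_le ε H n x)⟩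

lemma bdd (ε : ℝ) (H : ℕ) (x : T) : IsBoundedUnder (· ≥ ·) atTop
    fun n : ℕ => ({k : ℕ | k < n ∧ GoodScale p q ε H k x}.ncard : ℝ) / n :=
  ⟨0, eventually_map.2 (Eventually.of_forall fun n => count_nonneg ε H n x)⟩

lemma dens_nonneg (ε : ℝ) (H : ℕ) (x : T) : 0 ≤ goodDensity p q ε H x :=
  le_liminf_of_le (cobdd ε H x) (Eventually.of_forall fun n => count_nonneg ε H n x)

lemma dens_mono {ε ε' : ℝ} (h : ε ≤ ε') (H : ℕ) (x : T) :
    goodDensity p q ε H x ≤ goodDensity p q ε' H x := by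
  classical
  refine liminf_le_liminf (Eventually.of_forall fun n => ?_) (bdd ε H x) (cobdd ε' H x)
  rw [count_eq, count_eq]
  refine div_le_div_of_nonneg_right ?_ (Nat.cast_nonneg _)
  have : ((Finset.range n).filter fun k => GoodScale p q ε H k x).card ≤
      ((Finset.range n).filter fun k => GoodScale p q ε' H k x).card := by
    refine Finset.card_le_card fun k hk => ?_
    rw [Finset.mem_filter] at hk ⊢
    exact ⟨hk.1, good_mono h hk.2⟩
  exact_mod_cast this

variable (hp : 2 ≤ p) (hq : 2 ≤ q)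
include hp hq

/-- upper bound at one level -/
lemma dim_level (hpq : Nat.Coprime p q) {s ε : ℝ} (hε : 0 < ε) :
    ∃ H0 : ℕ, ∀ H : ℕ, H0 ≤ H →
      dimH {x : T | goodDensity p q ε H x < s - ε} ≤ ENNReal.ofReal s := by
  classical
  rcases lt_or_ge s ε with hs | hs
  · refine ⟨0, fun H _ => ?_⟩
    have : {x : T | goodDensity p q ε H x < s - ε} = ∅ := by
      rw [Set.eq_empty_iff_forall_notMem]
      intro x hx
      have h1 : goodDensity p q ε H x < s - ε := hx
      have := dens_nonneg (p := p) (q := q) ε H x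
      linarith
    rw [this, dimH_empty]
    exact bot_le
  obtain ⟨M, H0, hH0, hM⟩ := bad_children hp hq hpq hε
  have hMR : (1 : ℝ) ≤ (M : ℝ) + 1 := by
    have : (0 : ℝ) ≤ M := Nat.cast_nonneg M
    linarith
  obtain ⟨H1, hH1⟩ := exists_nat_gt (Real.exp (Real.log ((M : ℝ) + 1) / ε))
  refine ⟨max H0 H1, fun H hH => ?_⟩
  have hHH0 : H0 ≤ H := (le_max_left _ _).trans hH
  have hHH1 : (H1 : ℝ) ≤ H := by exact_mod_cast (le_max_right _ _).trans hH
  obtain ⟨v0, -, hv0⟩ := hM H hHH0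
  have hH2 : 2 ≤ H := hH0.trans hHH0
  have hHR : (2 : ℝ) ≤ H := by exact_mod_cast hH2
  have hlH : 0 < Real.log H := Real.log_pos (by linarith)
  have h1 : Real.log ((M : ℝ) + 1) / ε < Real.log H :=
    (Real.lt_log_iff_exp_lt (by linarith)).2 (hH1.trans_le hHH1)
  have h2 : Real.log ((M : ℝ) + 1) / Real.log H < ε := by
    rw [div_lt_iff₀ hlH]
    rw [div_lt_iff₀ hε] at h1
    linarith
  have h3 := dim_ratio (p := p) (q := q) (ε := ε) hH2 (M := M) (v0 := v0)
    (fun v hv => (hv0 v hv).2) (σ := s - ε) (s := s) (by linarith) (by linarith)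
  refine (dimH_mono ?_).trans h3
  intro x hx
  have hx' : goodDensity p q ε H x < s - ε := hx
  have h4 := frequently_lt_of_liminf_lt (cobdd ε H x) hx'
  have h5 : ∃ᶠ n : ℕ in atTop,
      (((Finset.range n).filter fun k => GoodScale p q ε H k x).card : ℝ) < (s - ε) * n := by
    refine (h4.and_eventually (eventually_ge_atTop 1)).mono ?_
    rintro n ⟨hn, hn1⟩
    have hnR : (0 : ℝ) < n := by
      have : 0 < n := hn1
      exact_mod_cast this
    rw [count_eq, div_lt_iff₀ hnR] at hn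
    exact hn
  exact h5

/-- **Upper bound of the dimension.** -/
theorem dim_upper (hpq : Nat.Coprime p q) (s : ℝ) :
    dimH {x : T | ∃ ε : ℝ, 0 < ε ∧ ∃ᶠ H : ℕ in atTop, goodDensity p q ε H x < s - ε} ≤
      ENNReal.ofReal s := by
  choose! H0 hH0 using fun (j : ℕ) => dim_level hp hq hpq (s := s) (ε := 1 / ((j : ℝ) + 1))
    (by positivity)
  have hsub : {x : T | ∃ ε : ℝ, 0 < ε ∧ ∃ᶠ H : ℕ in atTop, goodDensity p q ε H x < s - ε} ⊆
      ⋃ w : ℕ × ℕ, {x : T | goodDensity p q (1 / ((w.1 : ℝ) + 1)) (H0 w.1 + w.2) x <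
        s - 1 / ((w.1 : ℝ) + 1)} := by
    rintro x ⟨ε, hε, hx⟩
    obtain ⟨j, hj⟩ := exists_nat_one_div_lt hε
    obtain ⟨H, hH, hlt⟩ := (frequently_atTop.1 hx) (H0 j)
    rw [Set.mem_iUnion]
    refine ⟨(j, H - H0 j), ?_⟩
    have e : H0 j + (H - H0 j) = H := by omega
    show goodDensity p q (1 / ((j : ℝ) + 1)) (H0 j + (H - H0 j)) x < s - 1 / ((j : ℝ) + 1)
    rw [e]
    have := dens_mono (p := p) (q := q) hj.le H x
    linarith
  refine (dimH_mono hsub).trans ?_
  rw [dimH_iUnion]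
  exact iSup_le fun w => hH0 w.1 _ (Nat.le_add_right _ _)

/-- points with long runs of zeros have few good scales -/
theorem cantor_sub_dens (hpq : Nat.Coprime p q) {s : ℝ} (hs1 : s ≤ 1) {R a b G : ℕ}
    [NeZero (p ^ (R + 1))] (hbm : 2 * p ^ R ≤ p ^ (R + 1)) (hab : a < b) (hG : 2 ≤ G)
    (has : (a : ℝ) / b < s) :
    cantor (m := p ^ (R + 1)) (b := p ^ R) hbm (free a b G) ⊆
      {x : T | ∃ ε : ℝ, 0 < ε ∧ ∀ᶠ H : ℕ in atTop, goodDensity p q ε H x < s - ε} := by
  classical
  intro x hx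
  obtain ⟨hlp, hlq⟩ := log_pos' hp hq
  have hb0 : (0 : ℝ) < b := by
    have : 0 < b := by omega
    exact_mod_cast this
  set φ : ℝ := (a : ℝ) / b with hφ
  have hφ0 : 0 ≤ φ := by positivity
  set t : ℝ := s - φ with ht
  have ht0 : 0 < t := by rw [ht]; linarith
  set κ : ℝ := t / 4 with hκ
  have hκ0 : 0 < κ := by positivity
  set c : ℝ := κ / (6 * (1 + κ)) with hc
  have hc0 : 0 < c := by positivity
  have hp1 : (1 : ℝ) < p := by exact_mod_cast (by omega : 1 < p)
  obtain ⟨D, hD⟩ := pow_unbounded_of_one_lt (1 / (c / 4)) hp1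
  have hD' : 1 / (p : ℝ) ^ D < c / 4 := by
    rw [div_lt_iff₀ (by positivity)]
    rw [div_lt_iff₀ (by positivity)] at hD
    linarith
  set ε : ℝ := min (c / 4) (t / 4) with hε
  have hε0 : 0 < ε := by positivity
  have hεc : ε ≤ c / 4 := min_le_left _ _
  have hεt : ε ≤ t / 4 := min_le_right _ _
  refine ⟨ε, hε0, ?_⟩
  obtain ⟨H0, hH0⟩ := exists_nat_ge (Real.exp (3 * Real.log q + Real.log p))
  filter_upwards [eventually_ge_atTop (max H0 2)] with H hH
  have hH2 : 2 ≤ H := (le_max_right _ _).trans hH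
  have hHR : (2 : ℝ) ≤ H := by exact_mod_cast hH2
  have hHH0 : (H0 : ℝ) ≤ H := by exact_mod_cast (le_max_left _ _).trans hH
  have hlH : 3 * Real.log q + Real.log p ≤ Real.log H :=
    (Real.le_log_iff_exp_le (by linarith)).2 (hH0.trans hHH0)
  have hlH0 : 0 < Real.log H := by linarith
  set L : ℝ := Real.log p / Real.log H with hL
  have hL0 : 0 < L := by positivity
  have hfreq : ∃ᶠ n : ℕ in atTop,
      ({k : ℕ | k < n ∧ GoodScale p q ε H k x}.ncard : ℝ) / n ≤ s - 2 * ε := by
    rw [frequently_atTop]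
    intro N1
    obtain ⟨k, hk⟩ := exists_nat_ge ((3 + D * L) * 4 / (t * L) + (N1 + 1 + D * L) / L + D)
    have hGk : k < G ^ k := Nat.lt_pow_self (by omega)
    set n1 := (R + 1) * (a * G ^ k) with hn1
    set n2 := (R + 1) * (b * G ^ k) with hn2
    have hGkb : G ^ k ≤ b * G ^ k := Nat.le_mul_of_pos_left _ (by omega)
    have hn2k : k ≤ n2 := by
      have : b * G ^ k ≤ (R + 1) * (b * G ^ k) := Nat.le_mul_of_pos_left _ (by omega)
      omega
    have hn2R : (k : ℝ) ≤ n2 := by exact_mod_cast hn2k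
    have hA0 : 0 ≤ (3 + D * L) * 4 / (t * L) := by positivity
    have hB0 : 0 ≤ (N1 + 1 + D * L) / L := by positivity
    have hD0 : (0 : ℝ) ≤ D := Nat.cast_nonneg D
    have hkD : D ≤ k := by
      have : (D : ℝ) ≤ k := by linarith
      exact_mod_cast this
    have hn12 : n1 + D ≤ n2 := by
      have h1 : a * G ^ k + G ^ k ≤ b * G ^ k := by
        have : (a + 1) * G ^ k ≤ b * G ^ k := Nat.mul_le_mul_right _ hab
        rw [add_mul, one_mul] at this
        exact this
      have h2 : (R + 1) * (a * G ^ k + G ^ k) ≤ (R + 1) * (b * G ^ k) := Nat.mul_le_mul_left _ h1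
      have h3 : G ^ k ≤ (R + 1) * G ^ k := Nat.le_mul_of_pos_left _ (by omega)
      have h4 : (R + 1) * (a * G ^ k + G ^ k) = n1 + (R + 1) * G ^ k := by rw [hn1]; ring
      omega
    have hrun := zero_run hp hbm hx k
    have hexp : (R + 1) * (b * G ^ k - a * G ^ k) = n2 - n1 := by
      rw [Nat.mul_sub]
    rw [hexp] at hrun
    have hn1φ : (n1 : ℝ) = φ * n2 := by
      rw [hn1, hn2, hφ]
      push_cast
      field_simp
    -- the number of scales
    have hn2D : (0 : ℝ) ≤ (n2 : ℝ) - D := by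
      have : (D : ℝ) ≤ k := by exact_mod_cast hkD
      linarith
    set n : ℕ := ⌊((n2 : ℝ) - D) * L⌋₊ with hn
    have hnle : (n : ℝ) ≤ ((n2 : ℝ) - D) * L := Nat.floor_le (by positivity)
    have hngt : ((n2 : ℝ) - D) * L < n + 1 := Nat.lt_floor_add_one _
    have hn2a : (3 + D * L) * 4 / (t * L) ≤ n2 := by linarith
    have hn2b : (N1 + 1 + D * L) / L ≤ n2 := by linarith
    rw [div_le_iff₀ (by positivity)] at hn2a
    rw [div_le_iff₀ hL0] at hn2b
    have hnN1 : (N1 : ℝ) ≤ n := by linarith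
    have hnpos : (0 : ℝ) < n := by
      have h1 : 3 + D * L ≤ n2 * L := by
        have : 0 ≤ (N1 : ℝ) := Nat.cast_nonneg _
        have ht1 : t ≤ 1 := by rw [ht]; linarith
        have : (n2 : ℝ) * (t * L) ≤ n2 * (1 * L) := by gcongr
        have h5 : 0 ≤ D * L := by positivity
        linarith
      linarith
    refine ⟨n, by exact_mod_cast hnN1, ?_⟩
    rw [div_le_iff₀ hnpos, count_eq]
    set Y : ℝ := (1 + κ) * n1 * L with hY
    have hY0 : 0 ≤ Y := by positivity
    have hsub : ((Finset.range n).filter fun k => GoodScale p q ε H k x) ⊆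
        Finset.range (⌈Y⌉₊ + 1) := by
      intro v hv
      rw [Finset.mem_filter, Finset.mem_range] at hv
      rw [Finset.mem_range]
      by_contra hcon
      push Not at hcon
      have h1 : 1 ≤ v := by omega
      have h2 : (⌈Y⌉₊ : ℝ) + 1 ≤ v := by exact_mod_cast hcon
      have h3 : Y ≤ v := (Nat.le_ceil Y).trans (by linarith)
      have h4 : ((v : ℝ) + 1) ≤ n := by exact_mod_cast hv.1
      have hgood := good_mono hεc hv.2
      refine run_bad hp hq hpq hκ0 hH2 (by linarith) (by linarith) hn12 hrun hD' h1 ?_ ?_ hgood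
      · have e : (1 + κ) * (n1 : ℝ) * Real.log p = Y * Real.log H := by
          rw [hY, hL]; field_simp
        rw [e]
        exact mul_le_mul_of_nonneg_right h3 hlH0.le
      · have e : ((n2 : ℝ) - D) * Real.log p = ((n2 : ℝ) - D) * L * Real.log H := by
          rw [hL]; field_simp
        rw [e]
        exact mul_le_mul_of_nonneg_right (h4.trans hnle) hlH0.le
    have hcard : (((Finset.range n).filter fun k => GoodScale p q ε H k x).card : ℝ) ≤ Y + 2 := by
      have h1 := Finset.card_le_card hsub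
      rw [Finset.card_range] at h1
      have h2 : (((Finset.range n).filter fun k => GoodScale p q ε H k x).card : ℝ) ≤
        (⌈Y⌉₊ : ℝ) + 1 := by exact_mod_cast h1
      have h3 := Nat.ceil_lt_add_one hY0
      linarith
    refine hcard.trans ?_
    -- arithmetic
    have hφ1 : φ ≤ 1 := by linarith
    have hn20 : (0 : ℝ) ≤ n2 := Nat.cast_nonneg _
    have hY1 : Y ≤ (φ + t / 4) * (n2 * L) := by
      rw [hY, hn1φ]
      have e : (1 + κ) * (φ * n2) * L = (φ + φ * κ) * (n2 * L) := by ring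
      rw [e]
      refine mul_le_mul_of_nonneg_right ?_ (by positivity)
      have : φ * κ ≤ 1 * κ := mul_le_mul_of_nonneg_right hφ1 hκ0.le
      rw [hκ] at this ⊢
      linarith
    have hs2 : φ + t / 2 ≤ s - 2 * ε := by
      have : s = φ + t := by rw [ht]; ring
      linarith
    refine le_trans ?_ (mul_le_mul_of_nonneg_right hs2 hnpos.le)
    have h6 : (φ + t / 2) * ((n2 - D) * L - 1) ≤ (φ + t / 2) * n :=
      mul_le_mul_of_nonneg_left (by linarith) (by positivity)
    refine le_trans ?_ h6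
    have h7 : φ + t / 2 ≤ 1 := by
      have : s = φ + t := by rw [ht]; ring
      linarith
    have h8 : (φ + t / 2) * (D * L + 1) ≤ 1 * (D * L + 1) :=
      mul_le_mul_of_nonneg_right h7 (by positivity)
    nlinarith
  have hlim : goodDensity p q ε H x ≤ s - 2 * ε :=
    liminf_le_of_frequently_le hfreq (bdd ε H x)
  linarith

/-- **Lower bound of the dimension.** -/
theorem dim_lower_dens (hpq : Nat.Coprime p q) {s : ℝ} (hs1 : s ≤ 1) :
    ENNReal.ofReal s ≤ dimH {x : T | ∃ ε : ℝ, 0 < ε ∧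
      ∀ᶠ H : ℕ in atTop, goodDensity p q ε H x < s - ε} := by
  refine le_of_forall_lt_imp_le_of_dense fun c hc => ?_
  have hcfin : c ≠ ∞ := ne_top_of_lt hc
  set c' : ℝ := c.toReal with hc'
  have hc'0 : 0 ≤ c' := ENNReal.toReal_nonneg
  have hc's : c' < s := by
    rw [← ENNReal.ofReal_toReal hcfin] at hc
    exact (ENNReal.ofReal_lt_ofReal_iff_of_nonneg hc'0).1 hc
  obtain ⟨w, hw1, hw2⟩ := exists_rat_btwn hc's
  have hw0 : (0 : ℝ) < w := lt_of_le_of_lt hc'0 hw1
  have hw0' : 0 < w := by exact_mod_cast hw0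
  have hnum : 0 < w.num := Rat.num_pos.2 hw0'
  set a : ℕ := w.num.toNat with ha
  set b : ℕ := w.den with hb
  have haR : (a : ℝ) = w.num := by
    have : ((w.num.toNat : ℕ) : ℤ) = w.num := Int.toNat_of_nonneg hnum.le
    exact_mod_cast this
  have hab : (w : ℝ) = a / b := by
    rw [haR]; exact_mod_cast (Rat.num_div_den w).symm
  have ha1 : 1 ≤ a := by omega
  have hb1 : 0 < b := w.den_pos
  have hbR : (0 : ℝ) < b := by exact_mod_cast hb1
  have hablt : a < b := by
    have h1 : (a : ℝ) / b < 1 := by rw [← hab]; linarith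
    rw [div_lt_one hbR] at h1
    exact_mod_cast h1
  have haRp : (0 : ℝ) < a := by exact_mod_cast ha1
  -- the growth of the blocks
  obtain ⟨G0, hG0⟩ := exists_nat_ge (2 / ((w : ℝ) - c'))
  set G : ℕ := G0 + b + 2 with hG
  have hGR : 2 / ((w : ℝ) - c') ≤ G := by
    refine hG0.trans ?_
    exact_mod_cast (by omega : G0 ≤ G)
  have hGpos : (0 : ℝ) < G := by
    have : 0 < G := by omega
    exact_mod_cast this
  have hGb : b < G * a := by
    calc b < G := by omega
      _ = G * 1 := (mul_one G).symm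
      _ ≤ G * a := Nat.mul_le_mul_left _ ha1
  have hne : NeZero (p ^ (G + 1)) := ⟨by positivity⟩
  have hbm : 2 * p ^ G ≤ p ^ (G + 1) := by
    have e : p ^ (G + 1) = p * p ^ G := pow_succ' _ _
    rw [e]
    exact Nat.mul_le_mul_right _ hp
  have h1 := free_dim (G := G) ha1 hablt hGb (p := p) (R := G) hp (by omega) hbm
  have h2 := dimH_mono (cantor_sub_dens hp hq hpq hs1 (R := G) (a := a) (b := b) (G := G) hbm
    hablt (by omega) (by rw [← hab]; exact hw2))
  refine le_trans ?_ (h1.trans h2)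
  rw [← ENNReal.ofReal_toReal hcfin]
  apply ENNReal.ofReal_le_ofReal
  rw [← hc']
  have hwc : 0 < (w : ℝ) - c' := by linarith
  have h3 : 2 / (G : ℝ) ≤ w - c' := by
    rw [div_le_iff₀ hwc] at hGR
    rw [div_le_iff₀ hGpos]
    linarith
  have hw1' : (w : ℝ) ≤ 1 := by linarith
  have h4 : (G : ℝ) * (G * a - b) / ((G + 1) * (G * b)) = G / (G + 1) * (w - 1 / G) := by
    rw [hab]; field_simp
  rw [h4]
  have h5 : (G : ℝ) / (G + 1) * (w - 1 / G) = w - (w + 1) / (G + 1) := by
    field_simp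
    ring
  rw [h5]
  have h6 : ((w : ℝ) + 1) / (G + 1) ≤ 2 / G := by
    rw [div_le_div_iff₀ (by positivity) hGpos]
    nlinarith
  linarith

/-- **The dimension spectrum of the good scales.** -/
theorem spectrum (hpq : Nat.Coprime p q) {s : ℝ} (hs1 : s ≤ 1) :
    dimH {x : T | ∃ ε : ℝ, 0 < ε ∧ ∃ᶠ H : ℕ in atTop, goodDensity p q ε H x < s - ε} =
      ENNReal.ofReal s ∧
    dimH {x : T | ∃ ε : ℝ, 0 < ε ∧ ∀ᶠ H : ℕ in atTop, goodDensity p q ε H x < s - ε} =
      ENNReal.ofReal s := by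
  have hsub : {x : T | ∃ ε : ℝ, 0 < ε ∧ ∀ᶠ H : ℕ in atTop, goodDensity p q ε H x < s - ε} ⊆
      {x : T | ∃ ε : ℝ, 0 < ε ∧ ∃ᶠ H : ℕ in atTop, goodDensity p q ε H x < s - ε} := by
    rintro x ⟨ε, hε, hx⟩
    exact ⟨ε, hε, hx.frequently⟩
  have h1 := dim_upper hp hq hpq s
  have h2 := dim_lower_dens hp hq hpq hs1
  have h3 := dimH_mono hsub
  exact ⟨le_antisymm h1 (h2.trans h3), le_antisymm (h3.trans h1) h2⟩

end

end Run7.h303.WS
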