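import Pool.Agent.Run7.h303.WS.Bad

/-!
Counting the `H`-adic arcs which contain points with few good scales.
-/

set_option autoImplicit false

open MeasureTheory Filter Topology Set

namespace Run7.h303.WS

open Pool.Agent.W764.FB Pool.Agent.W764.SH Pool.Agent.W764.HL

section
variable (p q : ℕ) (ε : ℝ) (H : ℕ)

/-- some point of the arc `i` of generation `v` is bad at scale `v` -/
def BadCell (v i : ℕ) : Prop := ∃ x : T, idx H v x = i ∧ ¬ GoodScale p q ε H v x

open Classical in
/-- weights of the arcs -/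
noncomputable def wt : ℕ → ℕ → ℝ
  | 0, _ => 1
  | (v + 1), i => wt v (i / H) * (if BadCell p q ε H (v + 1) i then (1 : ℝ) else 1 / (H : ℝ))

variable {p q ε H}

lemma wt_nonneg (v i : ℕ) : 0 ≤ wt p q ε H v i := by
  induction v generalizing i with
  | zero => exact zero_le_one
  | succ v ih =>
    unfold wt
    have := ih (i / H)
    split_ifs <;> positivity

lemma wt_le_one (hH : 1 ≤ H) (v i : ℕ) : wt p q ε H v i ≤ 1 := by
  induction v generalizing i with
  | zero => exact le_rfl
  | succ v ih =>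
    unfold wt
    have h0 := wt_nonneg (p := p) (q := q) (ε := ε) (H := H) v (i / H)
    have h1 : (1 : ℝ) ≤ H := by exact_mod_cast hH
    have h2 : 1 / (H : ℝ) ≤ 1 := by rw [div_le_one (by linarith)]; exact h1
    split_ifs
    · rw [mul_one]; exact ih _
    · calc wt p q ε H v (i / H) * (1 / H) ≤ 1 * 1 :=
            mul_le_mul (ih _) h2 (by positivity) zero_le_one
        _ = 1 := one_mul 1

open Classical in
/-- the weight of the arc of a point with few good scales is large -/
lemma wt_ge (hH : 1 ≤ H) (v : ℕ) (x : T) :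
    (1 / (H : ℝ)) ^ ((Finset.Icc 1 v).filter fun k => GoodScale p q ε H k x).card ≤
      wt p q ε H v (idx H v x) := by
  have h1 : (1 : ℝ) ≤ H := by exact_mod_cast hH
  have h2 : 1 / (H : ℝ) ≤ 1 := by rw [div_le_one (by linarith)]; exact h1
  have h0 : 0 ≤ 1 / (H : ℝ) := by positivity
  induction v with
  | zero => simp [wt]
  | succ v ih =>
    unfold wt
    rw [idx_succ hH]
    have hI : Finset.Icc 1 (v + 1) = insert (v + 1) (Finset.Icc 1 v) := by
      ext k; simp only [Finset.mem_Icc, Finset.mem_insert]; omega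
    by_cases hb : BadCell p q ε H (v + 1) (idx H (v + 1) x)
    · rw [if_pos hb, mul_one]
      refine le_trans (pow_le_pow_of_le_one h0 h2 ?_) ih
      refine Finset.card_le_card (Finset.filter_subset_filter _ ?_)
      rw [hI]; exact Finset.subset_insert _ _
    · have hg : GoodScale p q ε H (v + 1) x := by
        by_contra hng
        exact hb ⟨x, rfl, hng⟩
      rw [if_neg hb, hI, Finset.filter_insert, if_pos hg, Finset.card_insert_of_notMem (by simp),
        pow_succ]
      exact mul_le_mul_of_nonneg_right ih h0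

open Classical in
lemma sum_succ (hH : 1 ≤ H) (v : ℕ) :
    ∑ i ∈ Finset.range (H ^ (v + 1)), wt p q ε H (v + 1) i =
      ∑ j ∈ Finset.range (H ^ v), wt p q ε H v j *
        ∑ i ∈ (Finset.range (H ^ (v + 1))).filter (fun i => i / H = j),
          (if BadCell p q ε H (v + 1) i then 1 else 1 / (H : ℝ)) := by
  rw [← Finset.sum_fiberwise_of_maps_to (s := Finset.range (H ^ (v + 1)))
    (t := Finset.range (H ^ v)) (g := fun i => i / H)]
  · refine Finset.sum_congr rfl fun j _ => ?_
    rw [Finset.mul_sum]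
    refine Finset.sum_congr rfl fun i hi => ?_
    rw [Finset.mem_filter] at hi
    have h1 : wt p q ε H (v + 1) i =
      wt p q ε H v (i / H) * (if BadCell p q ε H (v + 1) i then (1 : ℝ) else 1 / (H : ℝ)) := rfl
    rw [h1, hi.2]
  · intro i hi
    rw [Finset.mem_range] at hi ⊢
    rw [Nat.div_lt_iff_lt_mul (by omega)]
    rw [pow_succ] at hi
    exact hi

open Classical in
lemma fiber_card (hH : 1 ≤ H) (N j : ℕ) :
    ((Finset.range N).filter (fun i => i / H = j)).card ≤ H := by
  have hsub : ((Finset.range N).filter (fun i => i / H = j)) ⊆ Finset.Ico (j * H) (j * H + H) := by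
    intro i hi
    rw [Finset.mem_filter] at hi
    rw [Finset.mem_Ico]
    have h1 := Nat.div_add_mod i H
    have h2 := Nat.mod_lt i (by omega : 0 < H)
    rw [hi.2] at h1
    have h3 : H * j = j * H := mul_comm _ _
    omega
  refine (Finset.card_le_card hsub).trans ?_
  rw [Nat.card_Ico]
  omega

open Classical in
/-- the total weight -/
lemma sum_wt_le (hH : 1 ≤ H) {M v0 : ℕ} (hM : ∀ v : ℕ, v0 ≤ v →
      ∀ j : ℕ, ∀ S : Finset ℕ, (∀ i ∈ S, ∃ x : T, idx H v x = j ∧ idx H (v + 1) x = i ∧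
        ¬ GoodScale p q ε H (v + 1) x) → S.card ≤ M) (v : ℕ) :
    ∑ i ∈ Finset.range (H ^ v), wt p q ε H v i ≤ (H : ℝ) ^ v0 * ((M : ℝ) + 1) ^ v := by
  have hHR : (1 : ℝ) ≤ H := by exact_mod_cast hH
  have hMR : (1 : ℝ) ≤ (M : ℝ) + 1 := by
    have : (0 : ℝ) ≤ M := Nat.cast_nonneg M
    linarith
  rcases le_or_gt v v0 with hv | hv
  · calc ∑ i ∈ Finset.range (H ^ v), wt p q ε H v i
        ≤ ∑ i ∈ Finset.range (H ^ v), (1 : ℝ) := Finset.sum_le_sum fun i _ => wt_le_one hH v i
      _ = (H : ℝ) ^ v := by rw [Finset.sum_const, Finset.card_range]; simp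
      _ ≤ (H : ℝ) ^ v0 := pow_le_pow_right₀ hHR hv
      _ = (H : ℝ) ^ v0 * 1 := (mul_one _).symm
      _ ≤ (H : ℝ) ^ v0 * ((M : ℝ) + 1) ^ v :=
          mul_le_mul_of_nonneg_left (one_le_pow₀ hMR) (by positivity)
  · have hv' : v0 ≤ v := hv.le
    clear hv
    induction v, hv' using Nat.le_induction with
    | base =>
      calc ∑ i ∈ Finset.range (H ^ v0), wt p q ε H v0 i
          ≤ ∑ i ∈ Finset.range (H ^ v0), (1 : ℝ) := Finset.sum_le_sum fun i _ => wt_le_one hH v0 i
        _ = (H : ℝ) ^ v0 := by rw [Finset.sum_const, Finset.card_range]; simp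
        _ = (H : ℝ) ^ v0 * 1 := (mul_one _).symm
        _ ≤ (H : ℝ) ^ v0 * ((M : ℝ) + 1) ^ v0 :=
            mul_le_mul_of_nonneg_left (one_le_pow₀ hMR) (by positivity)
    | succ v hv ih =>
      rw [sum_succ hH]
      have hinner : ∀ j : ℕ, ∑ i ∈ (Finset.range (H ^ (v + 1))).filter (fun i => i / H = j),
          (if BadCell p q ε H (v + 1) i then 1 else 1 / (H : ℝ)) ≤ (M : ℝ) + 1 := by
        intro j
        set S := (Finset.range (H ^ (v + 1))).filter (fun i => i / H = j) with hS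
        have h1 : ∀ i ∈ S, (if BadCell p q ε H (v + 1) i then 1 else 1 / (H : ℝ)) ≤
            (if BadCell p q ε H (v + 1) i then 1 else 0) + 1 / (H : ℝ) := by
          intro i _
          have : 0 ≤ 1 / (H : ℝ) := by positivity
          split_ifs <;> linarith
        refine (Finset.sum_le_sum h1).trans ?_
        rw [Finset.sum_add_distrib, Finset.sum_const, nsmul_eq_mul]
        have h2 : ∑ i ∈ S, (if BadCell p q ε H (v + 1) i then (1 : ℝ) else 0) =
            ((S.filter fun i => BadCell p q ε H (v + 1) i).card : ℝ) := by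
          rw [Finset.card_filter]; push_cast; rfl
        rw [h2]
        have h3 : (S.filter fun i => BadCell p q ε H (v + 1) i).card ≤ M := by
          refine hM v hv j _ fun i hi => ?_
          rw [Finset.mem_filter, hS, Finset.mem_filter] at hi
          obtain ⟨⟨-, hij⟩, x, hx1, hx2⟩ := hi
          refine ⟨x, ?_, hx1, hx2⟩
          rw [← idx_succ hH, hx1, hij]
        have h4 : (S.card : ℝ) * (1 / (H : ℝ)) ≤ 1 := by
          have h5 : (S.card : ℝ) ≤ H := by exact_mod_cast fiber_card hH _ j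
          rw [mul_one_div, div_le_one (by linarith)]
          exact h5
        have h6 : ((S.filter fun i => BadCell p q ε H (v + 1) i).card : ℝ) ≤ M := by
          exact_mod_cast h3
        linarith
      calc ∑ j ∈ Finset.range (H ^ v), wt p q ε H v j *
            ∑ i ∈ (Finset.range (H ^ (v + 1))).filter (fun i => i / H = j),
              (if BadCell p q ε H (v + 1) i then 1 else 1 / (H : ℝ))
          ≤ ∑ j ∈ Finset.range (H ^ v), wt p q ε H v j * ((M : ℝ) + 1) :=
            Finset.sum_le_sum fun j _ => mul_le_mul_of_nonneg_left (hinner j) (wt_nonneg v j)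
        _ = (∑ j ∈ Finset.range (H ^ v), wt p q ε H v j) * ((M : ℝ) + 1) := by
            rw [Finset.sum_mul]
        _ ≤ ((H : ℝ) ^ v0 * ((M : ℝ) + 1) ^ v) * ((M : ℝ) + 1) :=
            mul_le_mul_of_nonneg_right ih (by linarith)
        _ = (H : ℝ) ^ v0 * ((M : ℝ) + 1) ^ (v + 1) := by ring

open Classical in
/-- **Few arcs contain points with few good scales.** -/
theorem few_cells (hH : 1 ≤ H) {M v0 : ℕ} (hM : ∀ v : ℕ, v0 ≤ v →
      ∀ j : ℕ, ∀ S : Finset ℕ, (∀ i ∈ S, ∃ x : T, idx H v x = j ∧ idx H (v + 1) x = i ∧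
        ¬ GoodScale p q ε H (v + 1) x) → S.card ≤ M) (v : ℕ) (g : ℝ) :
    (((Finset.range (H ^ v)).filter fun i => ∃ x : T, idx H v x = i ∧
      (((Finset.Icc 1 v).filter fun k => GoodScale p q ε H k x).card : ℝ) ≤ g).card : ℝ) ≤
      (H : ℝ) ^ g * ((H : ℝ) ^ v0 * ((M : ℝ) + 1) ^ v) := by
  have hHR : (1 : ℝ) ≤ H := by exact_mod_cast hH
  have hHpos : (0 : ℝ) < H := by linarith
  set A := (Finset.range (H ^ v)).filter fun i => ∃ x : T, idx H v x = i ∧
      (((Finset.Icc 1 v).filter fun k => GoodScale p q ε H k x).card : ℝ) ≤ g with hA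
  have h1 : ∀ i ∈ A, (H : ℝ) ^ (-g) ≤ wt p q ε H v i := by
    intro i hi
    rw [hA, Finset.mem_filter] at hi
    obtain ⟨-, x, rfl, hx⟩ := hi
    refine le_trans ?_ (wt_ge hH v x)
    rw [one_div, inv_pow, ← Real.rpow_natCast, ← Real.rpow_neg hHpos.le]
    exact Real.rpow_le_rpow_of_exponent_le hHR (by linarith)
  have h2 : (A.card : ℝ) * (H : ℝ) ^ (-g) ≤ ∑ i ∈ A, wt p q ε H v i := by
    have := Finset.card_nsmul_le_sum A (fun i => wt p q ε H v i) ((H : ℝ) ^ (-g)) h1
    rwa [nsmul_eq_mul] at this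
  have h3 : ∑ i ∈ A, wt p q ε H v i ≤ ∑ i ∈ Finset.range (H ^ v), wt p q ε H v i :=
    Finset.sum_le_sum_of_subset_of_nonneg (Finset.filter_subset _ _) fun i _ _ => wt_nonneg v i
  have h4 := h2.trans (h3.trans (sum_wt_le hH hM v))
  have h5 : (0 : ℝ) < (H : ℝ) ^ g := Real.rpow_pos_of_pos hHpos g
  rw [Real.rpow_neg hHpos.le, ← div_eq_mul_inv, div_le_iff₀ h5] at h4
  linarith

end

section
variable {p q : ℕ} {ε : ℝ} {H : ℕ}

open Classical in
/-- **Dimension bound for one ratio.** -/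
theorem dim_ratio (hH : 2 ≤ H) {M v0 : ℕ} (hM : ∀ v : ℕ, v0 ≤ v →
      ∀ j : ℕ, ∀ S : Finset ℕ, (∀ i ∈ S, ∃ x : T, idx H v x = j ∧ idx H (v + 1) x = i ∧
        ¬ GoodScale p q ε H (v + 1) x) → S.card ≤ M) {σ s : ℝ} (hσ : 0 ≤ σ)
    (hs : σ + Real.log ((M : ℝ) + 1) / Real.log H < s) :
    dimH {x : T | ∃ᶠ n : ℕ in atTop,
      (((Finset.range n).filter fun k => GoodScale p q ε H k x).card : ℝ) < σ * n} ≤
      ENNReal.ofReal s := by
  have hHR : (2 : ℝ) ≤ H := by exact_mod_cast hH
  have hHpos : (0 : ℝ) < H := by linarith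
  have hlH : 0 < Real.log H := Real.log_pos (by linarith)
  have hMR : (1 : ℝ) ≤ (M : ℝ) + 1 := by
    have : (0 : ℝ) ≤ M := Nat.cast_nonneg M
    linarith
  set l := Real.log ((M : ℝ) + 1) / Real.log H with hl
  have hl0 : 0 ≤ l := div_nonneg (Real.log_nonneg hMR) hlH.le
  have hgap : 0 < s - σ - l := by linarith
  obtain ⟨v1, hv1⟩ := exists_nat_ge ((σ + v0) / (s - σ - l))
  have hMl : ((M : ℝ) + 1) = (H : ℝ) ^ l := by
    rw [hl, Real.rpow_def_of_pos hHpos, mul_div_cancel₀ _ hlH.ne', Real.exp_log (by linarith)]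
  refine Pool.Agent.Y314.FD.dimH_le_of_balls _ (fun v : ℕ => ((Finset.range (H ^ v)).filter
      fun i : ℕ => ∃ x : T, idx H v x = i ∧
        (((Finset.Icc 1 v).filter fun k => GoodScale p q ε H k x).card : ℝ) ≤
          σ * ((v : ℝ) + 1)).image fun i : ℕ => (((i : ℝ) / (H : ℝ) ^ v : ℝ) : T)) (b := 1 / (H : ℝ)) (s := s) (v0 := v1)
      (by positivity) (by rw [div_lt_one hHpos]; linarith) (by linarith) ?_ ?_
  · intro v hv
    have hv' : (v1 : ℝ) ≤ v := by exact_mod_cast hv
    have h1 := few_cells (by omega : 1 ≤ H) hM v (σ * (v + 1))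
    refine le_trans (by exact_mod_cast Finset.card_image_le) (h1.trans ?_)
    rw [one_div, Real.inv_rpow hHpos.le, ← Real.rpow_neg hHpos.le, neg_neg, hMl,
      ← Real.rpow_natCast, ← Real.rpow_natCast, ← Real.rpow_mul hHpos.le,
      ← Real.rpow_add hHpos, ← Real.rpow_add hHpos]
    refine Real.rpow_le_rpow_of_exponent_le (by linarith) ?_
    rw [div_le_iff₀ hgap] at hv1
    nlinarith
  · intro x hx
    have hx' : ∃ᶠ n : ℕ in atTop,
      (((Finset.range n).filter fun k => GoodScale p q ε H k x).card : ℝ) < σ * n := hx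
    rw [frequently_atTop] at hx' ⊢
    intro n0
    obtain ⟨n, hn, hlt⟩ := hx' (n0 + 1)
    obtain ⟨v, rfl⟩ : ∃ v, n = v + 1 := ⟨n - 1, by omega⟩
    refine ⟨v, by omega, (((idx H v x : ℕ) : ℝ) / (H : ℝ) ^ v : ℝ), ?_, ?_⟩
    · refine Finset.mem_image.2 ⟨idx H v x, ?_, rfl⟩
      rw [Finset.mem_filter, Finset.mem_range]
      refine ⟨idx_lt (by omega) v x, x, rfl, ?_⟩
      push_cast at hlt
      refine le_trans ?_ hlt.le
      have : ((Finset.Icc 1 v).filter fun k => GoodScale p q ε H k x).card ≤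
          ((Finset.range (v + 1)).filter fun k => GoodScale p q ε H k x).card := by
        refine Finset.card_le_card (Finset.filter_subset_filter _ ?_)
        intro k hk
        rw [Finset.mem_Icc] at hk
        rw [Finset.mem_range]
        omega
      exact_mod_cast this
    · have hHv : (0 : ℝ) < (H : ℝ) ^ v := by positivity
      rw [dist_eq_norm, one_div, inv_pow]
      have e : x - ((((idx H v x : ℕ) : ℝ) / (H : ℝ) ^ v : ℝ) : T) =
          ((rep x - ((idx H v x : ℕ) : ℝ) / (H : ℝ) ^ v : ℝ) : T) := by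
        rw [AddCircle.coe_sub, coe_rep]
      rw [e]
      refine (norm_coe_le _).trans ?_
      have h1 := Nat.floor_le (mul_nonneg hHv.le (rep_nonneg x))
      have h2 := Nat.lt_floor_add_one ((H : ℝ) ^ v * rep x)
      have e2 : rep x - ((idx H v x : ℕ) : ℝ) / (H : ℝ) ^ v =
          ((H : ℝ) ^ v * rep x - ((idx H v x : ℕ) : ℝ)) * ((H : ℝ) ^ v)⁻¹ := by
        field_simp
      rw [e2, abs_mul, abs_of_pos (inv_pos.2 hHv)]
      have h3 : |(H : ℝ) ^ v * rep x - ((idx H v x : ℕ) : ℝ)| ≤ 1 := by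
        unfold idx
        rw [abs_le]
        constructor <;> linarith
      calc |(H : ℝ) ^ v * rep x - ((idx H v x : ℕ) : ℝ)| * ((H : ℝ) ^ v)⁻¹
          ≤ 1 * ((H : ℝ) ^ v)⁻¹ := mul_le_mul_of_nonneg_right h3 (by positivity)
        _ = ((H : ℝ) ^ v)⁻¹ := one_mul _

end

end Run7.h303.WS
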